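import Pool.Agent.P8H71.RQ.Step2

set_option autoImplicit false

namespace Pool.Agent.P8H71.RQ

open MeasureTheory Set Metric Filter Topology

/-- a finite family of thin strips -/
def Good (F : Set (ℝ × ℝ × ℝ)) (ω : ℝ) : Prop :=
  F.Finite ∧ ∀ T ∈ F, 0 < T.2.2 ∧ T.2.2 ≤ ω ∧ |T.1| + 2 * T.2.2 ≤ 2

/-- the sign of a bit -/
def sg (c : Bool) : ℝ := if c then 1 else -1

/-- `T'` is a child of `T` on the side `c` -/
def Child (T T' : ℝ × ℝ × ℝ) (c : Bool) : Prop :=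
  (∀ x : ℝ, |x| ≤ 1 → |(T'.1 * x + T'.2.1) - (T.1 * x + T.2.1)| + 2 * T'.2.2 ≤ 2 * T.2.2) ∧
    4 * T'.2.2 ≤ sg c * (T'.1 - T.1)

theorem slope_of_incl {a b a' b' u : ℝ}
    (h : ∀ x : ℝ, |x| ≤ 1 → |(a' * x + b') - (a * x + b)| ≤ u) : |a' - a| ≤ u := by
  have h1 := abs_le.1 (h 1 (by simp))
  have h2 := abs_le.1 (h (-1) (by simp))
  rw [abs_le]; constructor <;> linarith [h1.1, h1.2, h2.1, h2.2]

theorem level (A : Set (ℝ × ℝ)) (r : ℝ) (hr : 0 < r) :
    ∃ w0 : ℝ, 0 < w0 ∧ ∀ F : Set (ℝ × ℝ × ℝ), ∀ ω : ℝ, Good F ω → ω ≤ w0 →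
      ∀ ε : ℝ, 0 < ε → ∀ ω' : ℝ, 0 < ω' → ∃ F' : Set (ℝ × ℝ × ℝ), Good F' ω' ∧
        (∀ T ∈ F, ∀ c : Bool, ∀ p ∈ A, p ∈ st T → ∃ T' ∈ F', p ∈ st T' ∧ Child T T' c) ∧
        volume {q : ℝ × ℝ | (∃ T ∈ F', q ∈ fat T) ∧ r < infDist q A} ≤ ENNReal.ofReal ε := by
  obtain ⟨w0, hw0, hstep⟩ := step A r hr
  refine ⟨w0, hw0, ?_⟩
  intro F ω hF hω ε hε ω' hω'
  have hfin := hF.1
  set X : Finset (ℝ × ℝ × ℝ) := hfin.toFinset with hX
  set ε' : ℝ := ε / (2 * (X.card + 1)) with hε'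
  have hε'0 : 0 < ε' := by positivity
  have hall : ∀ T : {T // T ∈ F}, ∀ c : Bool, ∃ G : Set (ℝ × ℝ × ℝ), G.Finite ∧
        (∀ T' ∈ G, 0 < T'.2.2 ∧ T'.2.2 ≤ ω' ∧
          (∀ x : ℝ, |x| ≤ 1 → |(T'.1 * x + T'.2.1) - (T.1.1 * x + T.1.2.1)| + 2 * T'.2.2 ≤
            2 * T.1.2.2) ∧
          4 * T'.2.2 ≤ sg c * (T'.1 - T.1.1)) ∧
        (∀ p ∈ A, p ∈ TS T.1.1 T.1.2.1 T.1.2.2 → ∃ T ∈ G, p ∈ st T) ∧
        volume {q : ℝ × ℝ | (∃ T ∈ G, q ∈ fat T) ∧ r < infDist q A} ≤ ENNReal.ofReal ε' := by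
    intro T c
    obtain ⟨h1, h2, h3⟩ := hF.2 T.1 T.2
    exact hstep T.1.1 T.1.2.1 T.1.2.2 (by linarith) h1 (h2.trans hω) ε' hε'0 ω' hω' (sg c)
      (by cases c <;> simp [sg])
  choose G hG1 hG2 hG3 hG4 using hall
  have : Finite {T // T ∈ F} := hfin
  set F' : Set (ℝ × ℝ × ℝ) := ⋃ T : {T // T ∈ F}, ⋃ c : Bool, G T c with hF'
  have hmem : ∀ T', T' ∈ F' ↔ ∃ T c, T' ∈ G T c := by intro T'; simp [hF']
  refine ⟨F', ⟨?_, ?_⟩, ?_, ?_⟩
  · exact Set.finite_iUnion fun T => Set.finite_iUnion fun c => hG1 T c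
  · intro T' hT'
    obtain ⟨T, c, h⟩ := (hmem T').1 hT'
    obtain ⟨h1, h2, h3, h4⟩ := hG2 T c T' h
    refine ⟨h1, h2, ?_⟩
    obtain ⟨g1, g2, g3⟩ := hF.2 T.1 T.2
    have h5 : |T'.1 - T.1.1| ≤ 2 * T.1.2.2 - 2 * T'.2.2 :=
      slope_of_incl (b := T.1.2.1) (b' := T'.2.1) fun x hx => by linarith [h3 x hx]
    have h6 := abs_add_le (T'.1 - T.1.1) T.1.1
    rw [sub_add_cancel] at h6
    linarith
  · intro T hT c p hp hpT
    obtain ⟨T', h1, h2⟩ := hG3 ⟨T, hT⟩ c p hp hpT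
    obtain ⟨_, _, h3, h4⟩ := hG2 ⟨T, hT⟩ c T' h1
    exact ⟨T', (hmem T').2 ⟨⟨T, hT⟩, c, h1⟩, h2, h3, h4⟩
  · have : Fintype {T // T ∈ F} := Fintype.ofFinite _
    have hsub : {q : ℝ × ℝ | (∃ T ∈ F', q ∈ fat T) ∧ r < infDist q A} ⊆
        ⋃ z ∈ (Finset.univ : Finset ({T // T ∈ F} × Bool)),
          {q : ℝ × ℝ | (∃ T ∈ G z.1 z.2, q ∈ fat T) ∧ r < infDist q A} := by
      rintro q ⟨⟨T', hT', hq⟩, hqr⟩
      obtain ⟨T, c, h⟩ := (hmem T').1 hT'
      simp only [mem_iUnion, Finset.mem_univ]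
      exact ⟨(T, c), trivial, ⟨T', h, hq⟩, hqr⟩
    refine (measure_mono hsub).trans ((measure_biUnion_finset_le _ _).trans ?_)
    refine (Finset.sum_le_card_nsmul _ _ _ fun z _ => hG4 z.1 z.2).trans ?_
    rw [nsmul_eq_mul, ← ENNReal.ofReal_natCast, ← ENNReal.ofReal_mul (Nat.cast_nonneg _)]
    apply ENNReal.ofReal_le_ofReal
    have hc : (Finset.univ : Finset ({T // T ∈ F} × Bool)).card = X.card * 2 := by
      rw [Finset.card_univ, Fintype.card_prod, Fintype.card_bool]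
      congr 1
      rw [hX]
      rw [← Nat.card_eq_fintype_card, ← Set.ncard_eq_toFinset_card F hfin]
      rfl
    rw [hc, hε']
    push_cast
    rw [mul_div_assoc', div_le_iff₀ (by positivity)]
    have : (0 : ℝ) ≤ X.card := Nat.cast_nonneg _
    nlinarith

theorem lines_cover (A : Set (ℝ × ℝ)) (hA : IsCompact A) (hne : A.Nonempty)
    (h1 : ∀ p ∈ A, |p.1| ≤ 1) (h0 : volume A = 0) :
    ∃ N : Set (ℝ × ℝ), IsCompact N ∧ volume N = 0 ∧ (∀ q ∈ N, |q.1| ≤ 1) ∧
      ∀ p ∈ A, ∃ m : (ℕ → Bool) → ℝ, Function.Injective m ∧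
        ∀ σ x, |x| ≤ 1 → (x, p.2 + m σ * (x - p.1)) ∈ N := by
  have hlev := fun n : ℕ => level A ((1 / 2 : ℝ) ^ n) (by positivity)
  choose thr hthr hlev using hlev
  set ω : ℕ → ℝ := fun n => min ((1 / 2 : ℝ) ^ n) (thr n) with hω
  have hω0 : ∀ n, 0 < ω n := fun n => lt_min (by positivity) (hthr n)
  have hω1 : ∀ n, ω n ≤ (1 / 2 : ℝ) ^ n := fun n => min_le_left _ _
  have hω2 : ∀ n, ω n ≤ thr n := fun n => min_le_right _ _
  -- initial family
  obtain ⟨F0, hF0, hF0A⟩ : ∃ F : Set (ℝ × ℝ × ℝ), Good F (ω 0) ∧ ∀ p ∈ A, ∃ T ∈ F, p ∈ st T := by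
    obtain ⟨B, hB⟩ : ∃ B : ℝ, ∀ p ∈ A, |p.2| ≤ B := by
      obtain ⟨B, hB⟩ := hA.isBounded.exists_norm_le
      exact ⟨B, fun p hp => (norm_snd_le p).trans (hB p hp)⟩
    set w : ℝ := min (ω 0) (1 / 2) with hw
    have hw0 : 0 < w := lt_min (hω0 0) (by norm_num)
    set J : ℕ := ⌈B / w⌉₊ + 1 with hJ
    refine ⟨(fun j : ℤ => ((0 : ℝ), (j : ℝ) * w, w)) '' Icc (-(J : ℤ)) J,
      ⟨(Set.finite_Icc _ _).image _, ?_⟩, ?_⟩
    · rintro T ⟨j, _, rfl⟩
      refine ⟨hw0, min_le_left _ _, ?_⟩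
      have : w ≤ 1 / 2 := min_le_right _ _
      simp only [abs_zero]
      linarith
    · intro p hp
      have hBw : B / w ≤ ⌈B / w⌉₊ := Nat.le_ceil _
      rw [div_le_iff₀ hw0] at hBw
      obtain ⟨b1, b2⟩ := abs_le.1 (hB p hp)
      set j : ℤ := ⌊p.2 / w⌋ with hj
      have hj1 : (j : ℝ) * w ≤ p.2 := by
        have := Int.floor_le (p.2 / w); rwa [le_div_iff₀ hw0] at this
      have hj2 : p.2 < (j + 1) * w := by
        have := Int.lt_floor_add_one (p.2 / w); rwa [div_lt_iff₀ hw0] at this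
      have hjJ : j ∈ Icc (-(J : ℤ)) J := by
        constructor
        · have h : (-(J : ℝ)) < j + 1 := by
            by_contra hcon
            push Not at hcon
            have : (j + 1) * w ≤ (-(J : ℝ)) * w := mul_le_mul_of_nonneg_right hcon hw0.le
            rw [hJ] at this
            push_cast at this
            linarith
          have h2 : (-(J : ℤ)) < j + 1 := by exact_mod_cast h
          omega
        · have h : (j : ℝ) < J := by
            by_contra hcon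
            push Not at hcon
            have : (J : ℝ) * w ≤ j * w := mul_le_mul_of_nonneg_right hcon hw0.le
            rw [hJ] at this
            push_cast at this
            linarith
          have h2 : j < (J : ℤ) := by exact_mod_cast h
          omega
      refine ⟨_, ⟨j, hjJ, rfl⟩, h1 p hp, ?_⟩
      simp only
      rw [abs_le]; constructor <;> linarith
  -- the sequence of families
  have hnext : ∀ n : ℕ, ∀ F : {F : Set (ℝ × ℝ × ℝ) // Good F (ω n)},
      ∃ F' : {F : Set (ℝ × ℝ × ℝ) // Good F (ω (n + 1))},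
        (∀ T ∈ F.1, ∀ c : Bool, ∀ p ∈ A, p ∈ st T → ∃ T' ∈ F'.1, p ∈ st T' ∧ Child T T' c) ∧
        volume {q : ℝ × ℝ | (∃ T ∈ F'.1, q ∈ fat T) ∧ (1 / 2 : ℝ) ^ n < infDist q A} ≤
          ENNReal.ofReal ((1 / 2 : ℝ) ^ n) := by
    intro n F
    obtain ⟨F', h1, h2, h3⟩ := hlev n F.1 (ω n) F.2 (hω2 n) ((1 / 2 : ℝ) ^ n) (by positivity)
      (ω (n + 1)) (hω0 _)
    exact ⟨⟨F', h1⟩, h2, h3⟩
  choose nx hnx1 hnx2 using hnext
  let G : (n : ℕ) → {F : Set (ℝ × ℝ × ℝ) // Good F (ω n)} := fun n =>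
    Nat.rec ⟨F0, hF0⟩ (fun n F => nx n F) n
  have hG1 : ∀ n, ∀ T ∈ (G n).1, ∀ c : Bool, ∀ p ∈ A, p ∈ st T →
      ∃ T' ∈ (G (n + 1)).1, p ∈ st T' ∧ Child T T' c := fun n => hnx1 n (G n)
  have hG2 : ∀ n, volume {q : ℝ × ℝ | (∃ T ∈ (G (n + 1)).1, q ∈ fat T) ∧
      (1 / 2 : ℝ) ^ n < infDist q A} ≤ ENNReal.ofReal ((1 / 2 : ℝ) ^ n) := fun n => hnx2 n (G n)
  have hG0 : ∀ p ∈ A, ∃ T ∈ (G 0).1, p ∈ st T := hF0A
  clear_value G
  set NN : ℕ → Set (ℝ × ℝ) := fun n => ⋃ T ∈ (G n).1, fat T with hNN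
  have hNNc : ∀ n, IsClosed (NN n) := fun n =>
    (G n).2.1.isClosed_biUnion fun T _ => isClosed_TS _ _ _
  set N : Set (ℝ × ℝ) := ⋂ n, NN n with hN
  have hNc : IsClosed N := isClosed_iInter hNNc
  have hNx : ∀ q ∈ N, |q.1| ≤ 1 := by
    intro q hq
    have : q ∈ NN 0 := mem_iInter.1 hq 0
    simp only [hNN, mem_iUnion] at this
    obtain ⟨T, _, hT⟩ := this
    exact hT.1
  have hbd : Bornology.IsBounded N := by
    refine Bornology.IsBounded.subset ?_ (iInter_subset NN 0)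
    refine (Bornology.isBounded_biUnion (G 0).2.1).2 fun T _ => ?_
    refine (isBounded_iff_forall_norm_le).2 ⟨1 + (|T.1| + |T.2.1| + |2 * T.2.2|), ?_⟩
    rintro q ⟨hq1, hq2⟩
    rw [Prod.norm_def, Real.norm_eq_abs, Real.norm_eq_abs]
    have h2 : |q.2| ≤ |2 * T.2.2| + (|T.1| + |T.2.1|) := by
      have h3 := abs_add_le (q.2 - (T.1 * q.1 + T.2.1)) (T.1 * q.1 + T.2.1)
      rw [sub_add_cancel] at h3
      have h4 := abs_add_le (T.1 * q.1) T.2.1
      have h5 : |T.1 * q.1| ≤ |T.1| := by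
        rw [abs_mul]
        exact mul_le_of_le_one_right (abs_nonneg _) hq1
      have h6 := hq2.trans (le_abs_self _)
      linarith
    refine max_le ?_ ?_
    · linarith [abs_nonneg T.1, abs_nonneg T.2.1, abs_nonneg (2 * T.2.2)]
    · linarith
  refine ⟨N, Metric.isCompact_of_isClosed_isBounded hNc hbd, ?_, hNx, ?_⟩
  · -- null
    have hlim1 : Tendsto (fun n : ℕ => volume (cthickening ((1 / 2 : ℝ) ^ n) A)) atTop (𝓝 0) := by
      have h2 := tendsto_measure_cthickening_of_isCompact (μ := (volume : Measure (ℝ × ℝ))) hA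
      rw [h0] at h2
      exact h2.comp (tendsto_pow_atTop_nhds_zero_of_lt_one (by norm_num) (by norm_num))
    have hlim2 : Tendsto (fun n : ℕ => ENNReal.ofReal ((1 / 2 : ℝ) ^ n)) atTop (𝓝 0) := by
      rw [← ENNReal.ofReal_zero]
      exact (ENNReal.continuous_ofReal.tendsto 0).comp
        (tendsto_pow_atTop_nhds_zero_of_lt_one (by norm_num) (by norm_num))
    have hlim := hlim1.add hlim2
    rw [add_zero] at hlim
    have hle : ∀ n : ℕ, volume N ≤
        volume (cthickening ((1 / 2 : ℝ) ^ n) A) + ENNReal.ofReal ((1 / 2 : ℝ) ^ n) := by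
      intro n
      refine (measure_mono ?_).trans ((measure_union_le _ _).trans (add_le_add le_rfl (hG2 n)))
      intro q hq
      have hq1 : q ∈ NN (n + 1) := mem_iInter.1 hq (n + 1)
      simp only [hNN, mem_iUnion] at hq1
      obtain ⟨T, hT, hqT⟩ := hq1
      by_cases hc : (1 / 2 : ℝ) ^ n < infDist q A
      · exact Or.inr ⟨⟨T, hT, hqT⟩, hc⟩
      · left
        push Not at hc
        rw [cthickening_eq_preimage_infEDist]
        simp only [mem_preimage, mem_Iic]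
        rw [← ENNReal.ofReal_toReal (infEDist_ne_top hne)]
        exact ENNReal.ofReal_le_ofReal hc
    exact le_antisymm (ge_of_tendsto' hlim hle) bot_le
  · -- lines
    intro p hp
    have hch : ∀ n : ℕ, ∀ T : {T // T ∈ (G n).1 ∧ p ∈ st T}, ∀ c : Bool,
        ∃ T' : {T // T ∈ (G (n + 1)).1 ∧ p ∈ st T}, Child T.1 T'.1 c := by
      intro n T c
      obtain ⟨T', h1, h2, h3⟩ := hG1 n T.1 T.2.1 c p hp T.2.2
      exact ⟨⟨T', h1, h2⟩, h3⟩
    choose ch hch using hch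
    obtain ⟨T0, hT0, hpT0⟩ := hG0 p hp
    let P : (ℕ → Bool) → (n : ℕ) → {T // T ∈ (G n).1 ∧ p ∈ st T} := fun σ n =>
      Nat.rec ⟨T0, hT0, hpT0⟩ (fun n T => ch n T (σ n)) n
    have hP : ∀ σ n, Child (P σ n).1 (P σ (n + 1)).1 (σ n) := fun σ n => hch n (P σ n) (σ n)
    have hPeq : ∀ σ σ' : ℕ → Bool, ∀ n, (∀ k < n, σ k = σ' k) → P σ n = P σ' n := by
      intro σ σ' n
      induction n with
      | zero => intro _; rfl
      | succ n ih =>
        intro h
        have h2 := ih fun k hk => h k (by omega)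
        change ch n (P σ n) (σ n) = ch n (P σ' n) (σ' n)
        rw [h2, h n (by omega)]
    clear_value P
    have hw : ∀ σ n, 0 < (P σ n).1.2.2 ∧ (P σ n).1.2.2 ≤ (1 / 2 : ℝ) ^ n := fun σ n => by
      obtain ⟨g1, g2, _⟩ := (G n).2.2 _ (P σ n).2.1
      exact ⟨g1, g2.trans (hω1 n)⟩
    have hnest : ∀ σ n k, ∀ x : ℝ, |x| ≤ 1 →
        |((P σ (n + k)).1.1 * x + (P σ (n + k)).1.2.1) - ((P σ n).1.1 * x + (P σ n).1.2.1)| +
          2 * (P σ (n + k)).1.2.2 ≤ 2 * (P σ n).1.2.2 := by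
      intro σ n k x hx
      induction k with
      | zero => simp
      | succ k ih =>
        have h2 := (hP σ (n + k)).1 x hx
        have h3 := abs_add_le
          (((P σ (n + k + 1)).1.1 * x + (P σ (n + k + 1)).1.2.1) -
            ((P σ (n + k)).1.1 * x + (P σ (n + k)).1.2.1))
          (((P σ (n + k)).1.1 * x + (P σ (n + k)).1.2.1) -
            ((P σ n).1.1 * x + (P σ n).1.2.1))
        rw [sub_add_sub_cancel] at h3
        rw [← add_assoc]
        linarith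
    have hslope : ∀ σ n k, |(P σ (n + k)).1.1 - (P σ n).1.1| ≤
        2 * (P σ n).1.2.2 - 2 * (P σ (n + k)).1.2.2 := fun σ n k =>
      slope_of_incl (b := (P σ n).1.2.1) (b' := (P σ (n + k)).1.2.1)
        fun x hx => by linarith [hnest σ n k x hx]
    have hcau : ∀ σ, ∃ m : ℝ, Tendsto (fun n => (P σ n).1.1) atTop (𝓝 m) := by
      intro σ
      refine cauchySeq_tendsto_of_complete
        (cauchySeq_of_le_tendsto_0 (fun n : ℕ => 4 * (1 / 2 : ℝ) ^ n) ?_ ?_)
      · intro n k M hn hk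
        have key : ∀ j, M ≤ j → |(P σ j).1.1 - (P σ M).1.1| ≤ 2 * (1 / 2 : ℝ) ^ M := by
          intro j hj
          obtain ⟨i, rfl⟩ := Nat.exists_eq_add_of_le hj
          have h2 := hslope σ M i
          have h3 := (hw σ M).2
          have h4 := (hw σ (M + i)).1
          linarith
        rw [Real.dist_eq]
        have h2 := abs_sub ((P σ n).1.1 - (P σ M).1.1) ((P σ k).1.1 - (P σ M).1.1)
        rw [sub_sub_sub_cancel_right] at h2
        have h3 := key n hn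
        have h4 := key k hk
        linarith
      · have h2 := (tendsto_pow_atTop_nhds_zero_of_lt_one (r := (1 / 2 : ℝ)) (by norm_num)
          (by norm_num)).const_mul 4
        simpa using h2
    choose m hm using hcau
    have hmw : ∀ σ n, |m σ - (P σ n).1.1| ≤ 2 * (P σ n).1.2.2 := by
      intro σ n
      have h2 : Tendsto (fun k => |(P σ (n + k)).1.1 - (P σ n).1.1|) atTop
          (𝓝 |m σ - (P σ n).1.1|) := by
        have h3 : Tendsto (fun k => (P σ (n + k)).1.1) atTop (𝓝 (m σ)) := by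
          exact (hm σ).comp (tendsto_atTop_mono (fun k => Nat.le_add_left k n) tendsto_id)
        exact (h3.sub_const _).abs
      refine le_of_tendsto' h2 fun k => ?_
      have h3 := hslope σ n k
      have h4 := (hw σ (n + k)).1
      linarith
    have hmside : ∀ σ n, 0 < sg (σ n) * (m σ - (P σ n).1.1) := by
      intro σ n
      have h2 := (hP σ n).2
      have h3 := hmw σ (n + 1)
      have h4 := (hw σ (n + 1)).1
      have h5 : |sg (σ n)| = 1 := by cases σ n <;> simp [sg]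
      have h6 : |sg (σ n) * (m σ - (P σ (n + 1)).1.1)| ≤ 2 * (P σ (n + 1)).1.2.2 := by
        rw [abs_mul, h5, one_mul]; exact h3
      have h7 := (abs_le.1 h6).1
      have h8 : sg (σ n) * (m σ - (P σ n).1.1) =
          sg (σ n) * (m σ - (P σ (n + 1)).1.1) + sg (σ n) * ((P σ (n + 1)).1.1 - (P σ n).1.1) := by
        ring
      rw [h8]; linarith
    refine ⟨m, ?_, ?_⟩
    · intro σ σ' hss
      by_contra hne'
      have hex : ∃ n, σ n ≠ σ' n := by
        by_contra hcon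
        push Not at hcon
        exact hne' (funext hcon)
      classical
      set n := Nat.find hex with hn
      have hn1 : σ n ≠ σ' n := Nat.find_spec hex
      have hn2 : ∀ k < n, σ k = σ' k := fun k hk => by
        by_contra hcon
        exact Nat.find_min hex hk hcon
      have h2 := hPeq σ σ' n hn2
      have h3 := hmside σ n
      have h4 := hmside σ' n
      rw [← h2, ← hss] at h4
      revert h3 h4 hn1
      generalize (P σ n).1.1 = q
      cases σ n <;> cases σ' n <;> simp [sg] <;> intros <;> linarith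
    · intro σ x hx
      refine mem_iInter.2 fun n => ?_
      simp only [hNN, mem_iUnion]
      refine ⟨(P σ n).1, (P σ n).2.1, hx, ?_⟩
      simp only
      have h2 : Tendsto (fun k => |p.2 + (P σ (n + k)).1.1 * (x - p.1) -
          ((P σ n).1.1 * x + (P σ n).1.2.1)|) atTop
          (𝓝 |p.2 + m σ * (x - p.1) - ((P σ n).1.1 * x + (P σ n).1.2.1)|) := by
        have h3 : Tendsto (fun k => (P σ (n + k)).1.1) atTop (𝓝 (m σ)) := by
          exact (hm σ).comp (tendsto_atTop_mono (fun k => Nat.le_add_left k n) tendsto_id)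
        exact (((h3.mul_const _).const_add _).sub_const _).abs
      refine le_of_tendsto' h2 fun k => ?_
      have h3 := hnest σ n k x hx
      have h4 : |p.2 - ((P σ (n + k)).1.1 * p.1 + (P σ (n + k)).1.2.1)| ≤ (P σ (n + k)).1.2.2 :=
        (P σ (n + k)).2.2.2
      have h5 := (hw σ (n + k)).1
      have h6 : p.2 + (P σ (n + k)).1.1 * (x - p.1) - ((P σ n).1.1 * x + (P σ n).1.2.1) =
          (p.2 - ((P σ (n + k)).1.1 * p.1 + (P σ (n + k)).1.2.1)) +
          (((P σ (n + k)).1.1 * x + (P σ (n + k)).1.2.1) -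
            ((P σ n).1.1 * x + (P σ n).1.2.1)) := by ring
      rw [h6]
      have h7 := abs_add_le (p.2 - ((P σ (n + k)).1.1 * p.1 + (P σ (n + k)).1.2.1))
        (((P σ (n + k)).1.1 * x + (P σ (n + k)).1.2.1) -
            ((P σ n).1.1 * x + (P σ n).1.2.1))
      linarith

end Pool.Agent.P8H71.RQ
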