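import Mathlib
import Pool.Agent.P8H71.RQ.Rec

set_option autoImplicit false

/-! A compact null set with unit segments in all directions. -/

namespace Pool.Agent.P8H71.RQ

open MeasureTheory Set

theorem bes_steep : ∃ B : Set (ℝ × ℝ), IsCompact B ∧ volume B = 0 ∧
    ∀ a : ℝ, |a| ≤ 1 → ∃ m : ℝ, ∀ X : ℝ, 1 ≤ X → X ≤ 2 → (X, m + a * X) ∈ B := by
  set A : Set (ℝ × ℝ) := {(0 : ℝ)} ×ˢ Icc (-1 : ℝ) 1 with hA
  have hAc : IsCompact A := isCompact_singleton.prod isCompact_Icc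
  have hAn : A.Nonempty := ⟨(0, 0), by simp [hA]⟩
  have hA1 : ∀ p ∈ A, |p.1| ≤ 1 := by
    rintro p ⟨hp, _⟩
    have : p.1 = 0 := hp
    rw [this]; simp
  have hA0 : volume A = 0 := by
    rw [hA, Measure.volume_eq_prod, Measure.prod_prod]; simp
  obtain ⟨N, hN, hN0, hN1, hNl⟩ := lines_cover A hAc hAn hA1 hA0
  set φ : ℝ × ℝ → ℝ × ℝ := fun p => (p.1⁻¹, p.2 * p.1⁻¹) with hφ
  set D : Set (ℝ × ℝ) := N ∩ {p | 1 / 2 ≤ p.1} with hD
  have hDc : IsCompact D := hN.inter_right (isClosed_le continuous_const continuous_fst)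
  have hne : ∀ p ∈ D, p.1 ≠ 0 := by
    rintro p ⟨_, hp⟩
    have : (1 : ℝ) / 2 ≤ p.1 := hp
    intro h; rw [h] at this; norm_num at this
  have hdiff : DifferentiableOn ℝ φ D := by
    intro p hp
    have h0 := hne p hp
    have h1 : DifferentiableAt ℝ (fun p : ℝ × ℝ => p.1⁻¹) p :=
      differentiableAt_fst.inv h0
    exact (h1.prodMk (differentiableAt_snd.mul h1)).differentiableWithinAt
  refine ⟨φ '' D, hDc.image_of_continuousOn hdiff.continuousOn, ?_, ?_⟩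
  · exact addHaar_image_eq_zero_of_differentiableOn_of_addHaar_eq_zero volume hdiff
      (measure_mono_null inter_subset_left hN0)
  · intro a ha
    obtain ⟨m, _, hm⟩ := hNl (0, a) ⟨rfl, abs_le.1 ha⟩
    refine ⟨m (fun _ => true), fun X hX1 hX2 => ?_⟩
    have hX0 : 0 < X := by linarith
    have h1 : X⁻¹ ≤ 1 := inv_le_one_of_one_le₀ hX1
    have h2 : 1 / 2 ≤ X⁻¹ := by rw [one_div]; exact inv_anti₀ hX0 hX2
    have h3 : |X⁻¹| ≤ 1 := by rw [abs_of_nonneg (by positivity)]; exact h1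
    refine ⟨(X⁻¹, a + m (fun _ => true) * (X⁻¹ - 0)), ⟨hm _ _ h3, h2⟩, ?_⟩
    simp only [hφ, inv_inv, Prod.mk.injEq, true_and, sub_zero]
    field_simp
    ring

theorem bes : ∃ B : Set (ℝ × ℝ), IsCompact B ∧ volume B = 0 ∧
    ∀ e : ℝ × ℝ, e.1 ^ 2 + e.2 ^ 2 = 1 → ∃ q : ℝ × ℝ, ∀ t : ℝ, 0 ≤ t → t ≤ 1 →
      (q.1 + t * e.1, q.2 + t * e.2) ∈ B := by
  obtain ⟨B, hB, hB0, hBs⟩ := bes_steep
  have key : ∀ e : ℝ × ℝ, e.1 ^ 2 + e.2 ^ 2 = 1 → |e.2| ≤ |e.1| → ∃ q : ℝ × ℝ, ∀ t : ℝ, 0 ≤ t →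
      t ≤ 1 → (q.1 + t * e.1, q.2 + t * e.2) ∈ B := by
    rintro ⟨e, f⟩ he hef
    simp only at he hef ⊢
    have he0 : e ≠ 0 := by
      intro h
      rw [h, abs_zero] at hef
      have hf : f = 0 := abs_nonpos_iff.1 hef
      rw [h, hf] at he; norm_num at he
    have he1 : |e| ≤ 1 := abs_le_one_iff_mul_self_le_one.2 (by nlinarith [sq_nonneg f])
    have ha : |f / e| ≤ 1 := by
      rw [abs_div, div_le_one (abs_pos.2 he0)]; exact hef
    obtain ⟨m, hm⟩ := hBs (f / e) ha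
    rw [abs_le] at he1
    rcases lt_or_gt_of_ne he0 with h | h
    · refine ⟨(1 - e, m + f / e * (1 - e)), fun t ht0 ht1 => ?_⟩
      have h1 := hm (1 - e + t * e) (by nlinarith) (by nlinarith)
      have h2 : m + f / e * (1 - e) + t * f = m + f / e * (1 - e + t * e) := by
        field_simp; ring
      simp only
      rw [h2]; exact h1
    · refine ⟨(1, m + f / e), fun t ht0 ht1 => ?_⟩
      have h1 := hm (1 + t * e) (by nlinarith) (by nlinarith)
      have h2 : m + f / e + t * f = m + f / e * (1 + t * e) := by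
        field_simp; ring
      simp only
      rw [h2]; exact h1
  refine ⟨B ∪ Prod.swap '' B, hB.union (hB.image continuous_swap), ?_, ?_⟩
  · rw [measure_union_null_iff]
    refine ⟨hB0, ?_⟩
    rw [image_swap_eq_preimage_swap]
    have h1 : MeasurePreserving (Prod.swap : ℝ × ℝ → ℝ × ℝ) volume volume :=
      Measure.measurePreserving_swap
    rw [h1.measure_preimage hB.isClosed.measurableSet.nullMeasurableSet]
    exact hB0
  · intro e he
    rcases le_total |e.2| |e.1| with h | h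
    · obtain ⟨q, hq⟩ := key e he h
      exact ⟨q, fun t h0 h1 => Or.inl (hq t h0 h1)⟩
    · obtain ⟨q, hq⟩ := key (e.2, e.1) (by simp only; linarith) h
      refine ⟨(q.2, q.1), fun t h0 h1 => Or.inr ⟨_, hq t h0 h1, rfl⟩⟩

end Pool.Agent.P8H71.RQ
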