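import Mathlib

set_option autoImplicit false

/-! The Cantor set of the numbers of `[0, 1]` with base 16 digits different from 15, and the plane
set of the points whose squared distance to the origin belongs to it: measure in strips. -/

namespace Pool.Agent.P8H71.RQ

open MeasureTheory Set

/-- the level `k` of the Cantor set -/
def CK : ℕ → Set ℝ
  | 0 => Icc 0 1
  | k + 1 => {t | ∃ d : ℕ, d ≤ 14 ∧ 16 * t - d ∈ CK k}

theorem CK_sub (k : ℕ) : CK k ⊆ Icc 0 1 := by
  induction k with
  | zero => exact subset_rfl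
  | succ k ih =>
    rintro t ⟨d, hd, ht⟩
    obtain ⟨h1, h2⟩ := ih ht
    have h3 : (d : ℝ) ≤ 14 := by exact_mod_cast hd
    have h4 : (0 : ℝ) ≤ d := Nat.cast_nonneg d
    constructor <;> linarith

theorem CK_anti_succ (k : ℕ) : CK (k + 1) ⊆ CK k := by
  induction k with
  | zero => exact CK_sub 1
  | succ k ih =>
    rintro t ⟨d, hd, ht⟩
    exact ⟨d, hd, ih ht⟩

theorem CK_anti : Antitone CK := antitone_nat_of_succ_le CK_anti_succ

theorem CK_closed (k : ℕ) : IsClosed (CK k) := by
  induction k with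
  | zero => exact isClosed_Icc
  | succ k ih =>
    have : CK (k + 1) = ⋃ d ∈ Finset.range 15, (fun t : ℝ => 16 * t - d) ⁻¹' CK k := by
      ext t
      simp only [mem_iUnion, Finset.mem_range, mem_preimage]
      constructor
      · rintro ⟨d, hd, ht⟩; exact ⟨d, by omega, ht⟩
      · rintro ⟨d, hd, ht⟩; exact ⟨d, by omega, ht⟩
    rw [this]
    exact isClosed_biUnion_finset fun d _ => ih.preimage (by fun_prop)

theorem zero_mem_CK (k : ℕ) : (0 : ℝ) ∈ CK k := by
  induction k with
  | zero => simp [CK]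
  | succ k ih => exact ⟨0, by norm_num, by simpa using ih⟩

/-- the length of the set of the `y` with `y² - a` in the Cantor set of level `k` -/
noncomputable def Fk (k : ℕ) (a : ℝ) : ENNReal := volume {y : ℝ | y ^ 2 - a ∈ CK k}

theorem Fk_succ (k : ℕ) (a : ℝ) :
    Fk (k + 1) a ≤ ∑ d ∈ Finset.range 15, ENNReal.ofReal (1 / 4) * Fk k (16 * a + d) := by
  have hsub : {y : ℝ | y ^ 2 - a ∈ CK (k + 1)} ⊆
      ⋃ d ∈ Finset.range 15, (fun y : ℝ => 4 * y) ⁻¹' {y : ℝ | y ^ 2 - (16 * a + d) ∈ CK k} := by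
    rintro y ⟨d, hd, hy⟩
    simp only [mem_iUnion, Finset.mem_range, mem_preimage]
    refine ⟨d, by omega, ?_⟩
    change (4 * y) ^ 2 - (16 * a + d) ∈ CK k
    have : (4 * y) ^ 2 - (16 * a + d) = 16 * (y ^ 2 - a) - d := by ring
    rw [this]; exact hy
  refine (measure_mono hsub).trans ((measure_biUnion_finset_le _ _).trans ?_)
  refine Finset.sum_le_sum fun d _ => ?_
  rw [Real.volume_preimage_mul_left (by norm_num)]
  unfold Fk
  rw [show |(4 : ℝ)⁻¹| = 1 / 4 by norm_num]

theorem Fk_zero (a : ℝ) : Fk 0 a ≤ ENNReal.ofReal (2 * (√(a + 1) - √a)) := by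
  have hsub : {y : ℝ | y ^ 2 - a ∈ CK 0} ⊆
      Icc (√a) (√(a + 1)) ∪ Icc (-√(a + 1)) (-√a) := by
    rintro y ⟨h1, h2⟩
    have h3 : √a ≤ |y| := by
      rw [← Real.sqrt_sq_eq_abs]; exact Real.sqrt_le_sqrt (by linarith)
    have h4 : |y| ≤ √(a + 1) := by
      rw [← Real.sqrt_sq_eq_abs]; exact Real.sqrt_le_sqrt (by linarith)
    rcases le_total 0 y with hy | hy
    · left; rw [abs_of_nonneg hy] at h3 h4; exact ⟨h3, h4⟩
    · right; rw [abs_of_nonpos hy] at h3 h4; constructor <;> linarith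
  refine (measure_mono hsub).trans ((measure_union_le _ _).trans ?_)
  rw [Real.volume_Icc, Real.volume_Icc]
  have h0 : 0 ≤ √(a + 1) - √a := by
    have := Real.sqrt_le_sqrt (by linarith : a ≤ a + 1); linarith
  rw [show -√a - -√(a + 1) = √(a + 1) - √a by ring, ← ENNReal.ofReal_add h0 h0]
  exact ENNReal.ofReal_le_ofReal (by linarith)

theorem Fk_pos (k : ℕ) : ∀ a : ℝ, 0 < a → Fk k a ≤ ENNReal.ofReal ((15 / 16) ^ k * (1 / √a)) := by
  induction k with
  | zero =>
    intro a ha
    refine (Fk_zero a).trans (ENNReal.ofReal_le_ofReal ?_)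
    have h1 : 0 < √a := Real.sqrt_pos.2 ha
    have h2 : √a ≤ √(a + 1) := Real.sqrt_le_sqrt (by linarith)
    have h3 : √a ^ 2 = a := Real.sq_sqrt ha.le
    have h4 : √(a + 1) ^ 2 = a + 1 := Real.sq_sqrt (by linarith)
    rw [pow_zero, one_mul, le_div_iff₀ h1]
    nlinarith
  | succ k ih =>
    intro a ha
    refine (Fk_succ k a).trans ?_
    have h1 : 0 < √a := Real.sqrt_pos.2 ha
    have hterm : ∀ d ∈ Finset.range 15, ENNReal.ofReal (1 / 4) * Fk k (16 * a + d) ≤
        ENNReal.ofReal (1 / 4 * ((15 / 16) ^ k * (1 / (4 * √a)))) := by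
      intro d _
      rw [ENNReal.ofReal_mul (by norm_num)]
      gcongr
      have hd : (0 : ℝ) ≤ d := Nat.cast_nonneg d
      refine (ih (16 * a + d) (by linarith)).trans (ENNReal.ofReal_le_ofReal ?_)
      have h2 : 4 * √a ≤ √(16 * a + d) := by
        have h3 : √(16 * a) = 4 * √a := by
          rw [Real.sqrt_mul (by norm_num)]
          have : √(16 : ℝ) = 4 := by
            rw [show (16 : ℝ) = 4 ^ 2 by norm_num]; exact Real.sqrt_sq (by norm_num)
          rw [this]
        rw [← h3]; exact Real.sqrt_le_sqrt (by linarith)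
      gcongr
    refine (Finset.sum_le_card_nsmul _ _ _ hterm).trans ?_
    rw [Finset.card_range, nsmul_eq_mul, ← ENNReal.ofReal_natCast,
      ← ENNReal.ofReal_mul (Nat.cast_nonneg _)]
    apply ENNReal.ofReal_le_ofReal
    push_cast
    rw [pow_succ]
    apply le_of_eq
    field_simp
    ring

theorem Fk_neg (k : ℕ) (a : ℝ) (ha : a < -1) : Fk k a = 0 := by
  unfold Fk
  have : {y : ℝ | y ^ 2 - a ∈ CK k} = ∅ := by
    ext y
    simp only [mem_ofPred_eq, mem_empty_iff_false, iff_false]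
    intro hy
    have := (CK_sub k hy).2
    nlinarith [sq_nonneg y]
  rw [this]; simp

/-- the auxiliary majorant -/
noncomputable def gg (t : ℝ) : ℝ := if t < -1 then 0 else if t < 1 then 5 else 1 / √t

theorem gg_nonneg (t : ℝ) : 0 ≤ gg t := by
  unfold gg; split_ifs <;> positivity

theorem gg_le (t : ℝ) :
    gg t ≤ (2 * √t - 2 * √(t - 1)) + (if -1 ≤ t ∧ t < 1 then 5 else 0) := by
  have hmono : √(t - 1) ≤ √t := Real.sqrt_le_sqrt (by linarith)
  have hif : (0 : ℝ) ≤ (if -1 ≤ t ∧ t < 1 then 5 else 0) := by split_ifs <;> norm_num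
  by_cases h1 : t < -1
  · unfold gg; rw [if_pos h1]; linarith
  by_cases h3 : t < 1
  · unfold gg; rw [if_neg h1, if_pos h3, if_pos ⟨not_lt.1 h1, h3⟩]; linarith
  · push Not at h3
    have h6 : 0 < √t := Real.sqrt_pos.2 (by linarith)
    have h7 : √t ^ 2 = t := Real.sq_sqrt (by linarith)
    have h8 : √(t - 1) ^ 2 = t - 1 := Real.sq_sqrt (by linarith)
    have h9 : gg t ≤ 2 * √t - 2 * √(t - 1) := by
      unfold gg
      rw [if_neg h1, if_neg (not_lt.2 h3), div_le_iff₀ h6]
      nlinarith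
    linarith

theorem gg_sum (b : ℝ) : ∑ d ∈ Finset.range 15, gg (b + d) ≤ 18 := by
  have h1 : ∑ d ∈ Finset.range 15, gg (b + (d : ℕ)) ≤
      ∑ d ∈ Finset.range 15, ((2 * √(b + (d : ℕ)) - 2 * √(b + (d : ℕ) - 1)) +
        (if -1 ≤ b + (d : ℕ) ∧ b + (d : ℕ) < 1 then (5 : ℝ) else 0)) :=
    Finset.sum_le_sum fun d _ => gg_le _
  rw [Finset.sum_add_distrib] at h1
  have h2 : ∑ d ∈ Finset.range 15, (2 * √(b + (d : ℕ)) - 2 * √(b + (d : ℕ) - 1)) =
      2 * √(b - 1 + 15) - 2 * √(b - 1) := by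
    have := Finset.sum_range_sub (fun d : ℕ => 2 * √(b - 1 + d)) 15
    simp only [Nat.cast_add, Nat.cast_one, Nat.cast_zero, add_zero, Nat.cast_ofNat] at this
    rw [← this]
    refine Finset.sum_congr rfl fun d _ => ?_
    rw [show b - 1 + ((d : ℝ) + 1) = b + d by ring, show b - 1 + (d : ℝ) = b + d - 1 by ring]
  have h3 : √(b - 1 + 15) ≤ √(b - 1) + 4 := by
    rw [Real.sqrt_le_left (by positivity)]
    have h4 : b - 1 ≤ √(b - 1) ^ 2 := by
      rcases le_total 0 (b - 1) with h | h
      · rw [Real.sq_sqrt h]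
      · exact h.trans (sq_nonneg _)
    nlinarith [Real.sqrt_nonneg (b - 1)]
  have h5 : ∑ d ∈ Finset.range 15, (if -1 ≤ b + (d : ℕ) ∧ b + (d : ℕ) < 1 then (5 : ℝ) else 0) ≤
      10 := by
    rw [← Finset.sum_filter, Finset.sum_const, nsmul_eq_mul]
    have hc : ((Finset.range 15).filter fun d : ℕ => -1 ≤ b + (d : ℕ) ∧ b + (d : ℕ) < 1).card ≤
        2 := by
      set S := (Finset.range 15).filter fun d : ℕ => -1 ≤ b + (d : ℕ) ∧ b + (d : ℕ) < 1 with hS
      by_cases hne : S.Nonempty
      · set m := S.min' hne with hm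
        have hmS : m ∈ S := Finset.min'_mem _ _
        have hsub : S ⊆ {m, m + 1} := by
          intro d hd
          have h6 : m ≤ d := Finset.min'_le _ _ hd
          rw [hS, Finset.mem_filter] at hd hmS
          have h7 : (d : ℝ) < m + 2 := by linarith [hd.2.2, hmS.2.1]
          have h8 : d < m + 2 := by exact_mod_cast h7
          rw [Finset.mem_insert, Finset.mem_singleton]
          omega
        exact (Finset.card_le_card hsub).trans Finset.card_le_two
      · rw [Finset.not_nonempty_iff_eq_empty.1 hne]; simp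
    have : ((((Finset.range 15).filter fun d : ℕ => -1 ≤ b + (d : ℕ) ∧ b + (d : ℕ) < 1).card : ℕ)
        : ℝ) ≤ 2 := by exact_mod_cast hc
    linarith
  linarith

theorem Fk_le (k : ℕ) : ∀ a : ℝ, Fk k a ≤ ENNReal.ofReal (5 * (15 / 16) ^ k) := by
  induction k with
  | zero =>
    intro a
    refine (Fk_zero a).trans (ENNReal.ofReal_le_ofReal ?_)
    have h3 : √(a + 1) ≤ √a + 1 := by
      rw [Real.sqrt_le_left (by positivity)]
      have h4 : a ≤ √a ^ 2 := by
        rcases le_total 0 a with h | h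
        · rw [Real.sq_sqrt h]
        · exact h.trans (sq_nonneg _)
      nlinarith [Real.sqrt_nonneg a]
    rw [pow_zero]; linarith
  | succ k ih =>
    intro a
    refine (Fk_succ k a).trans ?_
    have hterm : ∀ d ∈ Finset.range 15, ENNReal.ofReal (1 / 4) * Fk k (16 * a + d) ≤
        ENNReal.ofReal (1 / 4 * ((15 / 16) ^ k * gg (16 * a + d))) := by
      intro d _
      rw [ENNReal.ofReal_mul (by norm_num)]
      gcongr
      unfold gg
      split_ifs with h1 h2
      · rw [Fk_neg k _ h1]; simp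
      · refine (ih _).trans (le_of_eq ?_)
        congr 1; ring
      · push Not at h2
        exact Fk_pos k _ (by linarith)
    refine (Finset.sum_le_sum hterm).trans ?_
    rw [← ENNReal.ofReal_sum_of_nonneg (fun d _ => by
      have := gg_nonneg (16 * a + d); positivity)]
    apply ENNReal.ofReal_le_ofReal
    rw [← Finset.mul_sum, ← Finset.mul_sum, pow_succ]
    have h1 := gg_sum (16 * a)
    have h2 : (0 : ℝ) < (15 / 16) ^ k := by positivity
    nlinarith

end Pool.Agent.P8H71.RQ
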