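import Mathlib
import Pool.Agent.P8H71.RQ.Cantor

set_option autoImplicit false

/-! Area of the radial Cantor set, and its non-coverability by strips. -/

namespace Pool.Agent.P8H71.RQ

open MeasureTheory Set

/-- the half-open version of `CK` -/
def DK : ℕ → Set ℝ
  | 0 => Ico 0 1
  | k + 1 => ⋃ d ∈ Finset.range 15, (fun t : ℝ => 16 * t - d) ⁻¹' DK k

theorem DK_sub_CK (k : ℕ) : DK k ⊆ CK k := by
  induction k with
  | zero => exact Ico_subset_Icc_self
  | succ k ih =>
    intro t ht
    simp only [DK, mem_iUnion, Finset.mem_range, mem_preimage] at ht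
    obtain ⟨d, hd, ht⟩ := ht
    exact ⟨d, by omega, ih ht⟩

theorem DK_sub (k : ℕ) : DK k ⊆ Ico 0 1 := by
  induction k with
  | zero => exact subset_rfl
  | succ k ih =>
    intro t ht
    simp only [DK, mem_iUnion, Finset.mem_range, mem_preimage] at ht
    obtain ⟨d, hd, ht⟩ := ht
    obtain ⟨h1, h2⟩ := ih ht
    have h3 : (d : ℝ) ≤ 14 := by exact_mod_cast (by omega : d ≤ 14)
    have h4 : (0 : ℝ) ≤ d := Nat.cast_nonneg d
    constructor <;> linarith

theorem DK_meas (k : ℕ) : MeasurableSet (DK k) := by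
  induction k with
  | zero => exact measurableSet_Ico
  | succ k ih =>
    exact Finset.measurableSet_biUnion _ fun d _ => ih.preimage (by fun_prop)

theorem vol_DK (k : ℕ) : volume (DK k) = ENNReal.ofReal ((15 / 16) ^ k) := by
  induction k with
  | zero => simp [DK]
  | succ k ih =>
    rw [DK, measure_biUnion_finset]
    · have : ∀ d ∈ Finset.range 15, volume ((fun t : ℝ => 16 * t - d) ⁻¹' DK k) =
          ENNReal.ofReal (1 / 16 * (15 / 16) ^ k) := by
        intro d _
        have h1 : (fun t : ℝ => 16 * t - d) ⁻¹' DK k =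
            (fun t : ℝ => 16 * t) ⁻¹' ((fun s : ℝ => s + (-(d : ℝ))) ⁻¹' DK k) := by
          ext t; simp [sub_eq_add_neg]
        rw [h1, Real.volume_preimage_mul_left (by norm_num), measure_preimage_add_right, ih,
          ENNReal.ofReal_mul (by norm_num)]
        rw [show |(16 : ℝ)⁻¹| = 1 / 16 by norm_num]
      rw [Finset.sum_congr rfl this, Finset.sum_const, Finset.card_range, nsmul_eq_mul,
        ← ENNReal.ofReal_natCast, ← ENNReal.ofReal_mul (Nat.cast_nonneg _)]
      congr 1
      push_cast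
      ring
    · intro d _ e _ hde
      refine Set.disjoint_left.2 fun t ht ht' => hde ?_
      obtain ⟨h1, h2⟩ := DK_sub k ht
      obtain ⟨h3, h4⟩ := DK_sub k ht'
      have h5 : (d : ℝ) < e + 1 := by linarith
      have h6 : (e : ℝ) < d + 1 := by linarith
      have h5' : d < e + 1 := by exact_mod_cast h5
      have h6' : e < d + 1 := by exact_mod_cast h6
      omega
    · intro d _
      exact (DK_meas k).preimage (by fun_prop)

/-- the plane set -/
def AK (k : ℕ) : Set (ℝ × ℝ) := {p | p.1 ^ 2 + p.2 ^ 2 ∈ CK k}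

theorem AK_closed (k : ℕ) : IsClosed (AK k) :=
  (CK_closed k).preimage (by fun_prop : Continuous fun p : ℝ × ℝ => p.1 ^ 2 + p.2 ^ 2)

theorem area_ge (k : ℕ) : ENNReal.ofReal (Real.pi * (15 / 16) ^ k) ≤ volume (AK k) := by
  have hmeas : MeasurableSet (AK k) := (AK_closed k).measurableSet
  have h0 : volume (AK k) = ∫⁻ p, (AK k).indicator (fun _ => (1 : ENNReal)) p := by
    rw [lintegral_indicator hmeas]; simp
  have hC : MeasurableSet (CK k) := (CK_closed k).measurableSet
  have hC' : MeasurableSet {r : ℝ | r ^ 2 ∈ CK k} :=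
    hC.preimage (by fun_prop : Measurable fun r : ℝ => r ^ 2)
  rw [h0, ← lintegral_comp_polarCoord_symm]
  have h1 : ∀ p : ℝ × ℝ, ENNReal.ofReal p.1 • (AK k).indicator (fun _ => (1 : ENNReal))
      (polarCoord.symm p) =
      (fun r : ℝ => ENNReal.ofReal r * ({r : ℝ | r ^ 2 ∈ CK k}).indicator (fun _ => 1) r) p.1 *
        (fun _ : ℝ => (1 : ENNReal)) p.2 := by
    rintro ⟨r, θ⟩
    simp only [polarCoord_symm_apply, smul_eq_mul, mul_one]
    congr 1
    have : (r * Real.cos θ) ^ 2 + (r * Real.sin θ) ^ 2 = r ^ 2 := by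
      have := Real.cos_sq_add_sin_sq θ
      calc (r * Real.cos θ) ^ 2 + (r * Real.sin θ) ^ 2 =
          r ^ 2 * (Real.cos θ ^ 2 + Real.sin θ ^ 2) := by ring
        _ = r ^ 2 := by rw [this, mul_one]
    unfold AK
    by_cases h : r ^ 2 ∈ CK k
    · rw [indicator_of_mem (by simpa only [mem_ofPred_eq, this] using h),
        indicator_of_mem (by exact h)]
    · rw [indicator_of_notMem (by simpa only [mem_ofPred_eq, this] using h),
        indicator_of_notMem (by exact h)]
  simp_rw [h1]
  rw [polarCoord_target, Measure.volume_eq_prod, ← Measure.prod_restrict,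
    lintegral_prod_mul (f := fun r : ℝ => ENNReal.ofReal r *
      ({r : ℝ | r ^ 2 ∈ CK k}).indicator (fun _ => 1) r) (g := fun _ : ℝ => (1 : ENNReal))]
  · have h2 : ∫⁻ r in Ioi (0 : ℝ), ENNReal.ofReal |2 * r| *
        (CK k).indicator (fun _ => (1 : ENNReal)) (r ^ 2) =
        ∫⁻ t in (fun r : ℝ => r ^ 2) '' Ioi 0, (CK k).indicator (fun _ => (1 : ENNReal)) t := by
      refine (lintegral_image_eq_lintegral_abs_deriv_mul measurableSet_Ioi (f := fun r : ℝ => r ^ 2)
        (f' := fun r => 2 * r) ?_ ?_ _).symm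
      · intro x _
        have := (hasDerivAt_pow 2 x).hasDerivWithinAt (s := Ioi 0)
        simpa using this
      · intro x hx y hy hxy
        have hx0 : (0 : ℝ) < x := hx
        have hy0 : (0 : ℝ) < y := hy
        simp only at hxy
        exact (pow_left_inj₀ hx0.le hy0.le (by norm_num)).1 hxy
    have h3 : DK k ∩ Ioi 0 ⊆ CK k ∩ (fun r : ℝ => r ^ 2) '' Ioi 0 := by
      rintro t ⟨ht, ht0⟩
      refine ⟨DK_sub_CK k ht, √t, Real.sqrt_pos.2 ht0, ?_⟩
      exact Real.sq_sqrt (le_of_lt ht0)
    have h4 : ENNReal.ofReal ((15 / 16) ^ k) ≤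
        ∫⁻ t in (fun r : ℝ => r ^ 2) '' Ioi 0, (CK k).indicator (fun _ => (1 : ENNReal)) t := by
      rw [lintegral_indicator hC, setLIntegral_const, one_mul, Measure.restrict_apply hC,
        ← vol_DK k]
      calc volume (DK k) ≤ volume ((DK k ∩ Ioi 0) ∪ {0}) := by
            refine measure_mono fun t ht => ?_
            rcases eq_or_lt_of_le (DK_sub k ht).1 with h | h
            · right; exact h.symm
            · left; exact ⟨ht, h⟩
        _ ≤ volume (DK k ∩ Ioi 0) + volume {(0 : ℝ)} := measure_union_le _ _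
        _ = volume (DK k ∩ Ioi 0) := by simp
        _ ≤ _ := measure_mono h3
    rw [← h2] at h4
    have h5 : ∫⁻ r in Ioi (0 : ℝ), ENNReal.ofReal |2 * r| *
        (CK k).indicator (fun _ => (1 : ENNReal)) (r ^ 2) =
        ENNReal.ofReal 2 * ∫⁻ r in Ioi (0 : ℝ), ENNReal.ofReal r *
          ({r : ℝ | r ^ 2 ∈ CK k}).indicator (fun _ => 1) r := by
      rw [← lintegral_const_mul _ (by
        refine Measurable.mul (by fun_prop) ?_
        exact measurable_const.indicator hC')]
      refine setLIntegral_congr_fun measurableSet_Ioi fun r hr => ?_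
      have hr0 : (0 : ℝ) < r := hr
      change ENNReal.ofReal |2 * r| * (CK k).indicator (fun _ => (1 : ENNReal)) (r ^ 2) =
        ENNReal.ofReal 2 * (ENNReal.ofReal r *
          ({r : ℝ | r ^ 2 ∈ CK k}).indicator (fun _ => (1 : ENNReal)) r)
      rw [abs_of_pos (by positivity), ENNReal.ofReal_mul (by norm_num), mul_assoc]
      congr 2
    rw [h5] at h4
    rw [lintegral_one, Measure.restrict_apply_univ, Real.volume_Ioo]
    rw [show Real.pi - -Real.pi = 2 * Real.pi by ring, ENNReal.ofReal_mul Real.pi_pos.le,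
      ENNReal.ofReal_mul (p := 2) (q := Real.pi) (by norm_num)]
    calc ENNReal.ofReal Real.pi * ENNReal.ofReal ((15 / 16) ^ k) ≤
        ENNReal.ofReal Real.pi * (ENNReal.ofReal 2 * ∫⁻ r in Ioi (0 : ℝ), ENNReal.ofReal r *
          ({r : ℝ | r ^ 2 ∈ CK k}).indicator (fun _ => 1) r) := by gcongr
      _ = _ := by ring
  · refine (Measurable.mul (by fun_prop) ?_).aemeasurable
    exact measurable_const.indicator hC'
  · exact aemeasurable_const

/-- the radial Cantor set has small intersections with the strips -/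
theorem strip_le (k : ℕ) (a b c w : ℝ) (hab : a ^ 2 + b ^ 2 = 1) :
    volume (AK k ∩ {p : ℝ × ℝ | c ≤ a * p.1 + b * p.2 ∧ a * p.1 + b * p.2 ≤ c + w}) ≤
      ENNReal.ofReal (5 * (15 / 16) ^ k) * ENNReal.ofReal w := by
  set f : ℝ × ℝ →ₗ[ℝ] ℝ × ℝ := Matrix.toLin (Module.Basis.finTwoProd ℝ) (Module.Basis.finTwoProd ℝ)
    !![a, b; -b, a] with hf
  have hdet : LinearMap.det f = 1 := by
    rw [hf, LinearMap.det_toLin, Matrix.det_fin_two_of]
    linarith
  have hfa : ∀ p : ℝ × ℝ, f p = (a * p.1 + b * p.2, -b * p.1 + a * p.2) := by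
    intro p; rw [hf, Matrix.toLin_finTwoProd_apply]
  set G : Set (ℝ × ℝ) := {q | q.1 ^ 2 + q.2 ^ 2 ∈ CK k ∧ q.1 ∈ Icc c (c + w)} with hG
  have hset : AK k ∩ {p : ℝ × ℝ | c ≤ a * p.1 + b * p.2 ∧ a * p.1 + b * p.2 ≤ c + w} =
      f ⁻¹' G := by
    ext p
    simp only [AK, mem_inter_iff, mem_ofPred_eq, mem_preimage, hG, hfa, mem_Icc]
    have : (a * p.1 + b * p.2) ^ 2 + (-b * p.1 + a * p.2) ^ 2 = p.1 ^ 2 + p.2 ^ 2 := by
      calc (a * p.1 + b * p.2) ^ 2 + (-b * p.1 + a * p.2) ^ 2 =
          (a ^ 2 + b ^ 2) * (p.1 ^ 2 + p.2 ^ 2) := by ring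
        _ = _ := by rw [hab, one_mul]
    rw [this]
  rw [hset, Measure.addHaar_preimage_linearMap _ (by rw [hdet]; exact one_ne_zero), hdet]
  have hGm : MeasurableSet G := by
    refine ((AK_closed k).measurableSet).inter ?_
    exact measurableSet_Icc.preimage (by fun_prop : Measurable fun q : ℝ × ℝ => q.1)
  simp only [inv_one, abs_one, ENNReal.ofReal_one, one_mul]
  rw [Measure.volume_eq_prod, Measure.prod_apply hGm]
  calc ∫⁻ x : ℝ, volume (Prod.mk x ⁻¹' G)
      ≤ ∫⁻ x : ℝ, (Icc c (c + w)).indicator (fun _ => ENNReal.ofReal (5 * (15 / 16) ^ k)) x := by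
        refine lintegral_mono fun x => ?_
        by_cases hx : x ∈ Icc c (c + w)
        · rw [indicator_of_mem hx]
          refine (measure_mono ?_).trans (Fk_le k (-x ^ 2))
          rintro y ⟨hy, _⟩
          change y ^ 2 - -x ^ 2 ∈ CK k
          have : y ^ 2 - -x ^ 2 = x ^ 2 + y ^ 2 := by ring
          rw [this]; exact hy
        · rw [indicator_of_notMem hx]
          have : Prod.mk x ⁻¹' G = ∅ := by
            ext y
            simp only [mem_preimage, mem_empty_iff_false, iff_false]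
            intro hy
            exact hx hy.2
          rw [this]; simp
    _ = _ := by
        rw [lintegral_indicator measurableSet_Icc, setLIntegral_const, Real.volume_Icc]
        congr 2; ring

end Pool.Agent.P8H71.RQ
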