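import Mathlib
import Pool.Agent.P8H71.RQ.Cantor2

set_option autoImplicit false

/-! The limit set: compact, null and not coverable by strips of total width less than `1/2`. -/

namespace Pool.Agent.P8H71.RQ

open MeasureTheory Set

theorem AK_sub_Icc (k : ℕ) : AK k ⊆ Icc ((-1 : ℝ), (-1 : ℝ)) (1, 1) := by
  rintro ⟨x, y⟩ hp
  have h1 : x ^ 2 + y ^ 2 ≤ 1 := (CK_sub k hp).2
  have h2 : |x| ≤ 1 := abs_le_one_iff_mul_self_le_one.2 (by nlinarith [sq_nonneg y])
  have h3 : |y| ≤ 1 := abs_le_one_iff_mul_self_le_one.2 (by nlinarith [sq_nonneg x])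
  rw [abs_le] at h2 h3
  exact ⟨⟨h2.1, h3.1⟩, ⟨h2.2, h3.2⟩⟩

theorem AK_compact (k : ℕ) : IsCompact (AK k) :=
  isCompact_Icc.of_isClosed_subset (AK_closed k) (AK_sub_Icc k)

theorem AK_anti : Antitone AK := fun _ _ h _ hp => CK_anti h hp

/-- the limit set -/
def AA : Set (ℝ × ℝ) := ⋂ k, AK k

theorem AA_compact : IsCompact AA :=
  (AK_compact 0).of_isClosed_subset (isClosed_iInter AK_closed) (iInter_subset _ 0)

theorem AA_nonempty : AA.Nonempty :=
  ⟨(0, 0), mem_iInter.2 fun k => by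
    change (0 : ℝ) ^ 2 + 0 ^ 2 ∈ CK k
    simpa using zero_mem_CK k⟩

theorem AA_fst (p : ℝ × ℝ) (hp : p ∈ AA) : |p.1| ≤ 1 := by
  have := AK_sub_Icc 0 (mem_iInter.1 hp 0)
  exact abs_le.2 ⟨this.1.1, this.2.1⟩

theorem AA_null : volume AA = 0 := by
  have h1 : ∀ k, volume AA ≤ ENNReal.ofReal (10 * (15 / 16) ^ k) := by
    intro k
    have h2 : AA ⊆ AK k ∩ {p : ℝ × ℝ | (-1 : ℝ) ≤ 1 * p.1 + 0 * p.2 ∧
        1 * p.1 + 0 * p.2 ≤ -1 + 2} := by
      intro p hp
      have h3 := abs_le.1 (AA_fst p hp)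
      exact ⟨mem_iInter.1 hp k, by linarith, by linarith⟩
    refine (measure_mono h2).trans ((strip_le k 1 0 (-1) 2 (by norm_num)).trans ?_)
    rw [← ENNReal.ofReal_mul (by positivity)]
    exact ENNReal.ofReal_le_ofReal (by linarith)
  have h2 : Filter.Tendsto (fun k : ℕ => ENNReal.ofReal (10 * (15 / 16 : ℝ) ^ k)) Filter.atTop
      (nhds (ENNReal.ofReal (10 * 0))) :=
    ENNReal.tendsto_ofReal ((tendsto_pow_atTop_nhds_zero_of_lt_one (by norm_num)
      (by norm_num)).const_mul 10)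
  have h3 := ge_of_tendsto' h2 h1
  simpa using h3

theorem AA_strips {ι : Type} [Countable ι] (a b c w : ι → ℝ) (hab : ∀ i, a i ^ 2 + b i ^ 2 = 1)
    (hw : ∀ i, 0 ≤ w i) (hs : Summable w) (hlt : ∑' i, w i < 1 / 2) :
    ∃ p ∈ AA, ∀ i, ¬ (c i ≤ a i * p.1 + b i * p.2 ∧ a i * p.1 + b i * p.2 ≤ c i + w i) := by
  by_contra hcon
  push Not at hcon
  obtain ⟨τ, hτ, σ, hσ, hσ2⟩ :=
    NNReal.exists_pos_sum_of_countable (ε := 1 / 20) (by positivity) ι
  set U : Set (ℝ × ℝ) := ⋃ i, {p : ℝ × ℝ | c i - τ i < a i * p.1 + b i * p.2 ∧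
    a i * p.1 + b i * p.2 < c i + w i + τ i} with hU
  have hUo : IsOpen U := by
    refine isOpen_iUnion fun i => ?_
    have h1 : Continuous fun p : ℝ × ℝ => a i * p.1 + b i * p.2 := by fun_prop
    exact isOpen_Ioo.preimage h1
  have hAU : ∀ p ∈ ⋂ k, AK k, U ∈ nhds p := by
    intro p hp
    refine hUo.mem_nhds ?_
    obtain ⟨i, hi1, hi2⟩ := hcon p hp
    have : (0 : ℝ) < τ i := hτ i
    exact mem_iUnion.2 ⟨i, by linarith, by linarith⟩
  obtain ⟨k, hk⟩ := exists_subset_nhds_of_isCompact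
    (directed_of_isDirected_le fun _ _ h => AK_anti h) AK_compact hAU
  have hτs : Summable fun i => ((τ i : ℝ)) := by
    have := hσ.summable; exact_mod_cast this
  have hτt : ∑' i, (τ i : ℝ) ≤ 1 / 20 := by
    have h1 : (∑' i, (τ i : ℝ)) = σ := by rw [← NNReal.coe_tsum, hσ.tsum_eq]
    rw [h1]
    have : (σ : ℝ) < ((1 / 20 : NNReal) : ℝ) := by exact_mod_cast hσ2
    have h2 : ((1 / 20 : NNReal) : ℝ) = 1 / 20 := by push_cast; norm_num
    rw [h2] at this; exact this.le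
  have hsum : Summable fun i => w i + 2 * (τ i : ℝ) := hs.add (hτs.mul_left 2)
  have hsumle : ∑' i, (w i + 2 * (τ i : ℝ)) ≤ 3 / 5 := by
    rw [hs.tsum_add (hτs.mul_left 2), tsum_mul_left]
    linarith
  have h1 : volume (AK k) ≤ ENNReal.ofReal (5 * (15 / 16) ^ k) * ENNReal.ofReal (3 / 5) := by
    calc volume (AK k) ≤ volume (⋃ i, AK k ∩ {p : ℝ × ℝ | (c i - τ i) ≤ a i * p.1 + b i * p.2 ∧
          a i * p.1 + b i * p.2 ≤ (c i - τ i) + (w i + 2 * τ i)}) := by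
          refine measure_mono fun p hp => ?_
          obtain ⟨i, hi1, hi2⟩ := mem_iUnion.1 (hk hp)
          exact mem_iUnion.2 ⟨i, hp, hi1.le, by linarith⟩
      _ ≤ ∑' i, volume (AK k ∩ {p : ℝ × ℝ | (c i - τ i) ≤ a i * p.1 + b i * p.2 ∧
          a i * p.1 + b i * p.2 ≤ (c i - τ i) + (w i + 2 * τ i)}) := measure_iUnion_le _
      _ ≤ ∑' i, ENNReal.ofReal (5 * (15 / 16) ^ k) * ENNReal.ofReal (w i + 2 * τ i) :=
          ENNReal.tsum_le_tsum fun i => strip_le k _ _ _ _ (hab i)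
      _ = ENNReal.ofReal (5 * (15 / 16) ^ k) * ENNReal.ofReal (∑' i, (w i + 2 * (τ i : ℝ))) := by
          rw [ENNReal.tsum_mul_left, ENNReal.ofReal_tsum_of_nonneg _ hsum]
          intro i
          have := hw i
          have : (0 : ℝ) ≤ τ i := (τ i).2
          positivity
      _ ≤ _ := by gcongr
  have h2 := (area_ge k).trans h1
  rw [← ENNReal.ofReal_mul (by positivity), ENNReal.ofReal_le_ofReal_iff (by positivity)] at h2
  have h3 := Real.pi_gt_three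
  have h4 : (0 : ℝ) < (15 / 16) ^ k := by positivity
  nlinarith

end Pool.Agent.P8H71.RQ
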