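import Mathlib

set_option autoImplicit false

/-! Injective choice functions for families of large sets. -/

namespace Pool.Agent.P8H71.RQ

open Cardinal Set

theorem exists_inj_choice {I X : Type} (x0 : X) (S : I → Set X) (h : ∀ i, #I ≤ #(S i)) :
    ∃ f : I → X, Function.Injective f ∧ ∀ i, f i ∈ S i := by
  classical
  obtain ⟨r, wo, hr⟩ := Cardinal.exists_ord_eq I
  set F : ∀ i : I, (∀ j, r j i → X) → X := fun i g =>
    if hne : (S i \ {x | ∃ j, ∃ hj : r j i, g j hj = x}).Nonempty then hne.some else x0 with hF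
  have hwf : WellFounded r := wo.wf
  set f : I → X := hwf.fix F with hf
  have hfi : ∀ i, f i = F i (fun j _ => f j) := fun i => hwf.fix_eq F i
  have hne : ∀ i, (S i \ {x | ∃ j, ∃ _ : r j i, f j = x}).Nonempty := by
    intro i
    apply Cardinal.sdiff_nonempty_of_mk_lt_mk
    have h1 : #{y // r y i} < #I := by
      have := Cardinal.card_typein_lt i hr
      rwa [Ordinal.card_typein] at this
    have h2 : #({x | ∃ j, ∃ _ : r j i, f j = x} : Set X) ≤ #{y // r y i} := by
      have : ({x | ∃ j, ∃ _ : r j i, f j = x} : Set X) = range fun y : {y // r y i} => f y.1 := by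
        ext x
        simp only [mem_ofPred_eq, mem_range, Subtype.exists, exists_prop]
      rw [this]; exact Cardinal.mk_range_le
    exact (h2.trans_lt h1).trans_le (h i)
  have hmem : ∀ i, f i ∈ S i \ {x | ∃ j, ∃ _ : r j i, f j = x} := by
    intro i
    rw [hfi i, hF]
    simp only
    rw [dif_pos (hne i)]
    exact (hne i).some_mem
  refine ⟨f, ?_, fun i => (hmem i).1⟩
  intro i j hij
  by_contra hne'
  have h1 : ¬ r i j := fun h1 => (hmem j).2 ⟨i, h1, hij⟩
  have h2 : ¬ r j i := fun h2 => (hmem i).2 ⟨j, h2, hij.symm⟩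
  rcases trichotomous_of r i j with h3 | h3 | h3
  · exact h1 h3
  · exact hne' h3
  · exact h2 h3

end Pool.Agent.P8H71.RQ
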