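import Mathlib
import Pool.Agent.P8H71.RQ.Cantor3
import Pool.Agent.P8H71.RQ.Sel
import Pool.Agent.P8H71.RQ.Bes

set_option autoImplicit false

/-! Assembly in `ℝ × ℝ`. -/

namespace Pool.Agent.P8H71.RQ

open MeasureTheory Set

theorem seg_through (p e : ℝ × ℝ) (m : ℝ) (hp : |p.1| ≤ 1) (he : e.1 ^ 2 + e.2 ^ 2 = 1)
    (he0 : 0 < e.1) (hm : e.2 = m * e.1) :
    ∃ q : ℝ × ℝ, (∀ t : ℝ, 0 ≤ t → t ≤ 1 → ∃ x : ℝ, |x| ≤ 1 ∧
      q + t • e = (x, p.2 + m * (x - p.1))) ∧ ∃ t : ℝ, 0 ≤ t ∧ t ≤ 1 ∧ q + t • e = p := by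
  have he1 : e.1 ≤ 1 := by nlinarith [sq_nonneg e.2]
  rw [abs_le] at hp
  rcases le_total 0 p.1 with h | h
  · refine ⟨p - e, fun t h0 h1 => ⟨p.1 - (1 - t) * e.1, ?_, ?_⟩, 1, by norm_num, le_rfl, by simp⟩
    · rw [abs_le]; constructor <;> nlinarith
    · ext
      · simp only [Prod.fst_add, Prod.fst_sub, Prod.smul_fst, smul_eq_mul]; ring
      · simp only [Prod.snd_add, Prod.snd_sub, Prod.smul_snd, smul_eq_mul, hm]; ring
  · refine ⟨p, fun t h0 h1 => ⟨p.1 + t * e.1, ?_, ?_⟩, 0, le_rfl, by norm_num, by simp⟩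
    · rw [abs_le]; constructor <;> nlinarith
    · ext
      · simp only [Prod.fst_add, Prod.smul_fst, smul_eq_mul]
      · simp only [Prod.snd_add, Prod.smul_snd, smul_eq_mul, hm]; ring

/-- the point `p` lies in the strip with the data `s = (a, b, c, w)` -/
def InStrip (s : ℝ × ℝ × ℝ × ℝ) (p : ℝ × ℝ) : Prop :=
  s.2.2.1 ≤ s.1 * p.1 + s.2.1 * p.2 ∧ s.1 * p.1 + s.2.1 * p.2 ≤ s.2.2.1 + s.2.2.2

theorem assemble : ∃ (K : Set (ℝ × ℝ)) (x : ℝ × ℝ → ℝ × ℝ), IsCompact K ∧ volume K = 0 ∧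
    (∀ e : ℝ × ℝ, e.1 ^ 2 + e.2 ^ 2 = 1 → x (-e) = x e + e) ∧
    (∀ e : ℝ × ℝ, e.1 ^ 2 + e.2 ^ 2 = 1 → ∀ t : ℝ, 0 ≤ t → t ≤ 1 → x e + t • e ∈ K) ∧
    (∀ s : ℕ → ℝ × ℝ × ℝ × ℝ, (∃ p ∈ AA, ∀ n, ¬ InStrip (s n) p) →
      ∃ (e : ℝ × ℝ) (t : ℝ), e.1 ^ 2 + e.2 ^ 2 = 1 ∧ 0 ≤ t ∧ t ≤ 1 ∧
        ∀ n, ¬ InStrip (s n) (x e + t • e)) := by
  classical
  obtain ⟨N, hN, hN0, hN1, hNl⟩ := lines_cover AA AA_compact AA_nonempty AA_fst AA_null
  obtain ⟨B, hB, hB0, hBs⟩ := bes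
  set K := N ∪ B with hK
  let I : Type := {s : ℕ → ℝ × ℝ × ℝ × ℝ // ∃ p ∈ AA, ∀ n, ¬ InStrip (s n) p}
  have hp : ∀ i : I, ∃ p ∈ AA, ∀ n, ¬ InStrip (i.1 n) p := fun i => i.2
  choose p hpA hpn using hp
  have hm : ∀ i : I, ∃ m : (ℕ → Bool) → ℝ, Function.Injective m ∧
      ∀ σ x, |x| ≤ 1 → (x, (p i).2 + m σ * (x - (p i).1)) ∈ N := fun i => hNl (p i) (hpA i)
  choose m hmi hmN using hm
  have hcard : ∀ i : I, Cardinal.mk I ≤ Cardinal.mk (range (m i)) := by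
    intro i
    rw [Cardinal.mk_range_eq _ (hmi i)]
    calc Cardinal.mk I ≤ Cardinal.mk (ℕ → ℝ × ℝ × ℝ × ℝ) := Cardinal.mk_subtype_le _
      _ = Cardinal.continuum := by simp [Cardinal.mk_real]
      _ = Cardinal.mk (ℕ → Bool) := by simp
      _ ≤ _ := le_rfl
  obtain ⟨f, hfinj, hf⟩ := exists_inj_choice (0 : ℝ) (fun i : I => range (m i)) hcard
  have hg : ∀ e : ℝ × ℝ, e.1 ^ 2 + e.2 ^ 2 = 1 → ∃ q : ℝ × ℝ,
      (∀ t : ℝ, 0 ≤ t → t ≤ 1 → q + t • e ∈ K) ∧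
      (∀ i : I, 0 < e.1 → e.2 = f i * e.1 → ∃ t : ℝ, 0 ≤ t ∧ t ≤ 1 ∧ q + t • e = p i) := by
    intro e he
    by_cases h : ∃ i : I, 0 < e.1 ∧ e.2 = f i * e.1
    · obtain ⟨i, he0, hei⟩ := h
      obtain ⟨q, hq1, hq2⟩ := seg_through (p i) e (f i) (AA_fst _ (hpA i)) he he0 hei
      refine ⟨q, fun t h0 h1 => ?_, fun j _ hej => ?_⟩
      · obtain ⟨x, hx, hqx⟩ := hq1 t h0 h1
        obtain ⟨σ, hσ⟩ := hf i
        rw [hqx, ← hσ]
        exact Or.inl (hmN i σ x hx)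
      · have : f i = f j := by
          have h1 : f i * e.1 = f j * e.1 := by rw [← hei, ← hej]
          exact mul_right_cancel₀ he0.ne' h1
        rw [← hfinj this]; exact hq2
    · obtain ⟨q, hq⟩ := hBs e he
      refine ⟨q, fun t h0 h1 => Or.inr (hq t h0 h1), fun i he0 hei => absurd ⟨i, he0, hei⟩ h⟩
  choose! g hg1 hg2 using hg
  set x : ℝ × ℝ → ℝ × ℝ := fun e =>
    if 0 < e.1 ∨ (e.1 = 0 ∧ 0 < e.2) then g e else g (-e) - e with hx
  have hneg : ∀ e : ℝ × ℝ, e.1 ^ 2 + e.2 ^ 2 = 1 → (-e).1 ^ 2 + (-e).2 ^ 2 = 1 := by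
    intro e he; simpa using he
  refine ⟨K, x, hN.union hB, ?_, ?_, ?_, ?_⟩
  · rw [hK, measure_union_null_iff]; exact ⟨hN0, hB0⟩
  · intro e he
    by_cases h : 0 < e.1 ∨ (e.1 = 0 ∧ 0 < e.2)
    · have h' : ¬ (0 < (-e).1 ∨ ((-e).1 = 0 ∧ 0 < (-e).2)) := by
        simp only [Prod.fst_neg, Prod.snd_neg]
        rintro (h1 | ⟨h1, h2⟩)
        · rcases h with h | h
          · linarith
          · linarith [h.1]
        · rcases h with h | h
          · linarith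
          · linarith [h.2]
      simp only [hx]
      rw [if_neg h', if_pos h]
      simp
    · have h' : 0 < (-e).1 ∨ ((-e).1 = 0 ∧ 0 < (-e).2) := by
        simp only [Prod.fst_neg, Prod.snd_neg]
        push Not at h
        rcases lt_or_eq_of_le h.1 with h1 | h1
        · left; linarith
        · right
          refine ⟨by rw [h1]; simp, ?_⟩
          have h2 := h.2 h1
          rcases lt_or_eq_of_le h2 with h3 | h3
          · linarith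
          · rw [h1, h3] at he; norm_num at he
      simp only [hx]
      rw [if_neg h, if_pos h']
      simp
  · intro e he t h0 h1
    simp only [hx]
    split_ifs with h
    · exact hg1 e he t h0 h1
    · have := hg1 (-e) (hneg e he) (1 - t) (by linarith) (by linarith)
      convert this using 1
      ext
      · simp only [Prod.fst_add, Prod.fst_sub, Prod.smul_fst, smul_eq_mul, Prod.fst_neg]; ring
      · simp only [Prod.snd_add, Prod.snd_sub, Prod.smul_snd, smul_eq_mul, Prod.snd_neg]; ring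
  · intro s hs
    let i : I := ⟨s, hs⟩
    have h1 : 0 < 1 + f i ^ 2 := by positivity
    have h2 : 0 < √(1 + f i ^ 2) := Real.sqrt_pos.2 h1
    have h3 : √(1 + f i ^ 2) ^ 2 = 1 + f i ^ 2 := Real.sq_sqrt h1.le
    set e : ℝ × ℝ := (1 / √(1 + f i ^ 2), f i / √(1 + f i ^ 2)) with he
    have he0 : 0 < e.1 := by simp only [he]; positivity
    have he1 : e.1 ^ 2 + e.2 ^ 2 = 1 := by
      simp only [he, div_pow, h3]
      field_simp
    have he2 : e.2 = f i * e.1 := by simp only [he]; ring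
    obtain ⟨t, ht0, ht1, ht⟩ := hg2 e he1 i he0 he2
    refine ⟨e, t, he1, ht0, ht1, ?_⟩
    have hxe : x e = g e := by
      simp only [hx]; rw [if_pos (Or.inl he0)]
    rw [hxe, ht]
    exact hpn i

end Pool.Agent.P8H71.RQ
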