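import Pool.Agent.P8H71.RQ.Dig

set_option autoImplicit false

namespace Pool.Agent.P8H71.RQ

open MeasureTheory Set

theorem pw_anti {N : ℕ} (hN : 2 ≤ N) {i j : ℕ} (h : i ≤ j) : pw N j ≤ pw N i := by
  unfold pw
  have h1 : (1 : ℝ) ≤ N := by exact_mod_cast (by omega : 1 ≤ N)
  have h2 : (N : ℝ)⁻¹ ≤ 1 := inv_le_one_of_one_le₀ h1
  exact pow_le_pow_of_le_one (by positivity) h2 h

theorem bb (U : ℝ) (hU : 1 ≤ U) (η : ℝ) (hη : 0 < η) (hη1 : η ≤ 1) :
    ∃ (D : Set (ℝ × ℝ)) (R : ℝ), D.Finite ∧ 0 < R ∧ R ≤ η ∧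
      (∀ z ∈ D, |z.1| ≤ 4 * U ∧ |z.2| ≤ 2) ∧
      (∀ t : ℝ, |t| ≤ 1 / (50 * U) → ∀ y : ℝ, 0 ≤ y → y ≤ 1 / 2 →
        ∃ z ∈ D, |y - vl z t| ≤ R) ∧
      (∀ t : ℝ, 1 / U ≤ |t| → |t| ≤ 2 →
        volume {y : ℝ | ∃ z ∈ D, |y - vl z t| ≤ 4 * R} ≤ ENNReal.ofReal (20 * η)) := by
  have hU0 : 0 < U := by linarith
  set K : ℕ := ⌊2 * U / η⌋₊ + 1 with hK
  set N : ℕ := ⌈(10 + 10 * U) / η⌉₊ with hNdef
  have hN1 : (10 + 10 * U) / η ≤ N := Nat.le_ceil _
  have hN1' : 10 + 10 * U ≤ N * η := by rwa [div_le_iff₀ hη] at hN1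
  have hN20 : (20 : ℝ) ≤ N := by
    have : (20 : ℝ) ≤ (10 + 10 * U) / η := by
      rw [le_div_iff₀ hη]; nlinarith
    linarith
  have hN : 2 ≤ N := by
    have : (2 : ℝ) ≤ N := by linarith
    exact_mod_cast this
  have hN2 : (N : ℝ) * η ≤ 21 * U := by
    have h1 : (N : ℝ) < (10 + 10 * U) / η + 1 := Nat.ceil_lt_add_one (by positivity)
    have h2 : (N : ℝ) * η < ((10 + 10 * U) / η + 1) * η := mul_lt_mul_of_pos_right h1 hη
    have h3 : ((10 + 10 * U) / η + 1) * η = 10 + 10 * U + η := by field_simp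
    rw [h3] at h2
    linarith
  have hN0 : (0 : ℝ) < N := by linarith
  have hK1 : 1 ≤ K := by omega
  have hKle : (K : ℝ) * η ≤ 2 * U + η := by
    have h1 : (⌊2 * U / η⌋₊ : ℝ) ≤ 2 * U / η := Nat.floor_le (by positivity)
    rw [le_div_iff₀ hη] at h1
    rw [hK]; push_cast; linarith
  have hKN : (K : ℝ) ≤ N := by
    by_contra hcon
    push Not at hcon
    have : (N : ℝ) * η < K * η := mul_lt_mul_of_pos_right hcon hη
    linarith
  have hu : ∀ j ≤ K, |uu U η j| ≤ U + η := by
    intro j hj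
    have h1 : (j : ℝ) ≤ K := by exact_mod_cast hj
    have h2 : η * j ≤ η * K := mul_le_mul_of_nonneg_left h1 hη.le
    have h3 : 0 ≤ η * (j : ℝ) := by positivity
    unfold uu
    rw [abs_le]
    constructor <;> linarith
  set R : ℝ := 2 * pw N K with hRdef
  have hpK := pw_pos hN K
  refine ⟨DS N U η 1 K, R, DS_finite N U η K 1, by positivity, ?_, ?_, ?_, ?_⟩
  · have h1 : pw N K ≤ pw N 1 := pw_anti hN hK1
    have h2 : pw N 1 = (N : ℝ)⁻¹ := by unfold pw; simp
    rw [h2] at h1
    have h3 : (N : ℝ)⁻¹ * 2 ≤ η := by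
      rw [inv_mul_le_iff₀ hN0]; linarith
    linarith
  · -- bounds for the parameters
    have key : ∀ n k : ℕ, k + n ≤ K + 1 → ∀ z ∈ DS N U η k n,
        |z.1| ≤ (U + η) * (2 * (N * pw N k)) ∧ |z.2| ≤ 2 * (N * pw N k) := by
      intro n
      induction n with
      | zero =>
        intro k _ z hz
        have hz : z = (0, 0) := hz
        subst hz
        have := (pw_pos hN k).le
        have hUη : 0 ≤ U + η := by linarith
        refine ⟨?_, ?_⟩
        · simpa using (by positivity : (0 : ℝ) ≤ (U + η) * (2 * (N * pw N k)))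
        · simpa using (by positivity : (0 : ℝ) ≤ (2 * (N * pw N k)))
      | succ n ih =>
        intro k hk z hz
        obtain ⟨d, hd, z', hz', rfl⟩ := hz
        obtain ⟨h1, h2⟩ := ih (k + 1) (by omega) z' hz'
        rw [pw_succ hN k] at h1 h2
        have h3 := pw_pos hN k
        have hdN : (d : ℝ) ≤ N := by exact_mod_cast hd
        have h4 : |(d : ℝ) * pw N k| ≤ N * pw N k := by
          rw [abs_mul, Nat.abs_cast, abs_of_pos h3]; gcongr
        have h6 : 2 * pw N k ≤ N * pw N k := by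
          have : (2 : ℝ) ≤ N := by linarith
          gcongr
        have hUη : 0 ≤ U + η := by linarith
        constructor
        · have h5 : |(d : ℝ) * pw N k * uu U η k| ≤ N * pw N k * (U + η) := by
            rw [abs_mul]
            exact mul_le_mul h4 (hu k (by omega)) (abs_nonneg _) (by positivity)
          have h7 := abs_sub z'.1 ((d : ℝ) * pw N k * uu U η k)
          have h8 : (U + η) * (2 * pw N k) ≤ (U + η) * (N * pw N k) := by gcongr
          calc _ ≤ |z'.1| + |(d : ℝ) * pw N k * uu U η k| := h7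
            _ ≤ (U + η) * (2 * pw N k) + N * pw N k * (U + η) := add_le_add h1 h5
            _ ≤ _ := by linarith
        · have h7 := abs_add_le z'.2 ((d : ℝ) * pw N k)
          calc _ ≤ |z'.2| + |(d : ℝ) * pw N k| := h7
            _ ≤ 2 * pw N k + N * pw N k := add_le_add h2 h4
            _ ≤ _ := by linarith
    intro z hz
    have h := key K 1 (by omega) z hz
    have h0 : (N : ℝ) * pw N 1 = 1 := by
      rw [pw_succ hN 0]; unfold pw; simp
    rw [h0] at h
    refine ⟨h.1.trans (by linarith), h.2.trans (by linarith)⟩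
  · -- covering
    intro t ht y hy0 hy1
    have ht' : |t| * (50 * U) ≤ 1 := by
      rwa [le_div_iff₀ (by positivity)] at ht
    have ht0 := abs_nonneg t
    have hut : ∀ j ≤ K, |uu U η j * t| ≤ 1 / 2 := by
      intro j hj
      rw [abs_mul]
      have := mul_le_mul_of_nonneg_right (hu j hj) ht0
      nlinarith
    have hcl : ∀ j ≤ K, 1 / 2 ≤ cc U η t j := by
      intro j hj
      have := (abs_le.1 (hut j hj)).2
      unfold cc; linarith
    have hcu : ∀ j ≤ K, cc U η t j ≤ 2 := by
      intro j hj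
      have := (abs_le.1 (hut j hj)).1
      unfold cc; linarith
    have hstep : ∀ j < K, cc U η t j ≤ (1 + 1 / (N : ℝ)) * cc U η t (j + 1) := by
      intro j hj
      have h1 : cc U η t j = cc U η t (j + 1) + η * t := by
        unfold cc uu; push_cast; ring
      have h2 : η * t ≤ η * |t| := mul_le_mul_of_nonneg_left (le_abs_self t) hη.le
      have h3 : η * |t| ≤ 1 / (N : ℝ) * (1 / 2) := by
        rw [div_mul_div_comm, one_mul, le_div_iff₀ (by positivity)]
        have h4 : (N : ℝ) * η * |t| ≤ 21 * U * |t| := mul_le_mul_of_nonneg_right hN2 ht0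
        nlinarith
      have h5 : 1 / (N : ℝ) * (1 / 2) ≤ 1 / (N : ℝ) * cc U η t (j + 1) :=
        mul_le_mul_of_nonneg_left (hcl (j + 1) (by omega)) (by positivity)
      rw [add_mul, one_mul]
      linarith
    have hR : pw N K * cc U η t K ≤ R := by
      have := mul_le_mul_of_nonneg_left (hcu K le_rfl) hpK.le
      linarith
    have htail := tail hN (cc U η t) R K hR hstep K 0 (by omega)
    have h0 : pw N 0 * cc U η t 0 = cc U η t 0 := by unfold pw; simp
    rw [h0] at htail
    obtain ⟨z, hz, h1, h2⟩ := cover hN U η t R K hR hstep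
      (fun j hj => by have := hcl j hj; linarith) K 0 (by omega) y hy0
      (by have := hcl 0 (by omega); linarith)
    refine ⟨z, by simpa using hz, ?_⟩
    rw [abs_of_nonneg h1]
    exact h2
  · -- smallness
    intro t ht1 ht2
    have ht0 : 0 < |t| := lt_of_lt_of_le (by positivity) ht1
    have htne : t ≠ 0 := abs_pos.1 ht0
    have hut : |1 / t| ≤ U := by
      rw [abs_div, abs_one, div_le_iff₀ ht0]
      rwa [div_le_iff₀ hU0, mul_comm] at ht1
    obtain ⟨hu1, hu2⟩ := abs_le.1 hut
    set m : ℕ := ⌊(1 / t + U) / η⌋₊ with hm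
    have hq0 : 0 ≤ (1 / t + U) / η := div_nonneg (by linarith) hη.le
    have hm1 : (m : ℝ) * η ≤ 1 / t + U := by
      have := Nat.floor_le hq0
      rwa [le_div_iff₀ hη] at this
    have hm2 : 1 / t + U < (m + 1) * η := by
      have := Nat.lt_floor_add_one ((1 / t + U) / η)
      rwa [div_lt_iff₀ hη] at this
    have hmK : m + 1 ≤ K := by
      have : m ≤ ⌊2 * U / η⌋₊ := Nat.floor_le_floor (by
        rw [div_le_div_iff_of_pos_right hη]; linarith)
      omega
    have hck : |cc U η t (m + 1)| ≤ 2 * η := by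
      have h1 : cc U η t (m + 1) = t * (1 / t - uu U η (m + 1)) := by
        unfold cc; field_simp
      have h2 : |1 / t - uu U η (m + 1)| ≤ η := by
        unfold uu
        push_cast
        rw [abs_le]
        constructor <;> nlinarith
      rw [h1, abs_mul]
      exact mul_le_mul ht2 h2 (abs_nonneg _) (by norm_num)
    have hcM : ∀ j ≤ K, |cc U η t j| ≤ 5 * U := by
      intro j hj
      have h1 : |uu U η j * t| ≤ (U + η) * 2 := by
        rw [abs_mul]
        exact mul_le_mul (hu j hj) ht2 (abs_nonneg _) (by linarith)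
      have h2 := abs_sub (1 : ℝ) (uu U η j * t)
      rw [abs_one] at h2
      unfold cc
      linarith
    obtain ⟨n, hn⟩ : ∃ n : ℕ, K = m + (n + 1) := ⟨K - m - 1, by omega⟩
    have hset : {y : ℝ | ∃ z ∈ DS N U η 1 K, |y - vl z t| ≤ 4 * R} =
        WW N U η t (4 * R) 1 (m + (n + 1)) := by rw [← hn]; rfl
    rw [hset]
    refine (vol_steps N U η t (4 * R) (n + 1) m 1).trans ?_
    set B : ℝ := 8 * pw N (m + 1) + 10 * U * pw N (m + 1) + 2 * η * pw N m with hB
    have hpm := pw_pos hN m
    have hpm1 := pw_pos hN (m + 1)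
    have hB0 : 0 ≤ B := by positivity
    have hsub : WW N U η t (4 * R) (1 + m) (n + 1) ⊆ Icc (-B) B := by
      rintro y ⟨z, ⟨d, hd, z', hz', rfl⟩, hy⟩
      have h1 := vl_le hN U η t (5 * U) (by positivity) n (1 + m + 1)
        (fun j _ h2 => hcM j (by omega)) z' hz'
      rw [pw_succ hN (1 + m)] at h1
      rw [vl_step] at hy
      have e1 : 1 + m = m + 1 := by ring
      rw [e1] at h1 hy
      have h2 : |(d : ℝ) * (pw N (m + 1) * cc U η t (m + 1))| ≤ 2 * η * pw N m := by
        rw [abs_mul, abs_mul, Nat.abs_cast, abs_of_pos hpm1]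
        have hdN : (d : ℝ) ≤ N := by exact_mod_cast hd
        calc (d : ℝ) * (pw N (m + 1) * |cc U η t (m + 1)|)
            ≤ N * (pw N (m + 1) * (2 * η)) := by gcongr
          _ = 2 * η * (N * pw N (m + 1)) := by ring
          _ = 2 * η * pw N m := by rw [pw_succ hN m]
      have h3 : 4 * R ≤ 8 * pw N (m + 1) := by
        have := pw_anti hN hmK
        rw [hRdef]; linarith
      have h4 : |y| ≤ B := by
        have h5 := abs_add_le (y - (vl z' t + (d : ℝ) * (pw N (m + 1) * cc U η t (m + 1))))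
          (vl z' t + (d : ℝ) * (pw N (m + 1) * cc U η t (m + 1)))
        rw [sub_add_cancel] at h5
        have h6 := abs_add_le (vl z' t) ((d : ℝ) * (pw N (m + 1) * cc U η t (m + 1)))
        rw [hB]
        linarith
      exact abs_le.1 h4
    have hvol : volume (WW N U η t (4 * R) (1 + m) (n + 1)) ≤ ENNReal.ofReal (2 * B) := by
      refine (measure_mono hsub).trans ?_
      rw [Real.volume_Icc]
      exact ENNReal.ofReal_le_ofReal (by linarith)
    refine (mul_le_mul_right hvol _).trans ?_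
    have e2 : ((N + 1 : ℕ) : ENNReal) ^ m = ENNReal.ofReal (((N : ℝ) + 1) ^ m) := by
      rw [ENNReal.ofReal_pow (by positivity)]
      congr 1
      rw [← ENNReal.ofReal_natCast]
      push_cast
      rfl
    rw [e2, ← ENNReal.ofReal_mul (by positivity)]
    apply ENNReal.ofReal_le_ofReal
    have h5 : ((N : ℝ) + 1) ^ m * pw N m ≤ 3 := by
      unfold pw
      rw [← mul_pow]
      have h6 : ((N : ℝ) + 1) * (N : ℝ)⁻¹ ≤ Real.exp (1 / N) := by
        have := Real.add_one_le_exp (1 / (N : ℝ))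
        have h7 : ((N : ℝ) + 1) * (N : ℝ)⁻¹ = 1 / N + 1 := by field_simp; ring
        rw [h7]; exact this
      calc (((N : ℝ) + 1) * (N : ℝ)⁻¹) ^ m ≤ (Real.exp (1 / N)) ^ m := by gcongr
        _ = Real.exp (m * (1 / N)) := by rw [← Real.exp_nat_mul]
        _ ≤ Real.exp 1 := by
            apply Real.exp_le_exp.2
            have h8 : (m : ℝ) ≤ N := by
              have : (m : ℝ) ≤ K := by exact_mod_cast (by omega : m ≤ K)
              linarith
            rw [mul_one_div, div_le_one hN0]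
            exact h8
        _ ≤ 3 := by have := Real.exp_one_lt_d9; linarith
    have h9 : B = pw N m * ((8 + 10 * U) / N + 2 * η) := by
      have : pw N (m + 1) = pw N m / N := by
        rw [← pw_succ hN m]; field_simp
      rw [hB, this]; field_simp
    have h10 : (8 + 10 * U) / N ≤ η := by
      rw [div_le_iff₀ hN0]; linarith
    calc ((N : ℝ) + 1) ^ m * (2 * B)
        = (((N : ℝ) + 1) ^ m * pw N m) * (2 * ((8 + 10 * U) / N + 2 * η)) := by rw [h9]; ring
      _ ≤ 3 * (2 * (η + 2 * η)) := by gcongr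
      _ ≤ 20 * η := by linarith

end Pool.Agent.P8H71.RQ
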