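import Mathlib

set_option autoImplicit false

/-! Lines with slowly varying centres: a finite family of lines which covers a strip near `t = 0`
and is small for `1 / U ≤ |t| ≤ 2`. -/

namespace Pool.Agent.P8H71.RQ

open MeasureTheory Set

/-- the weight of the level `k` -/
noncomputable def pw (N : ℕ) (k : ℕ) : ℝ := ((N : ℝ)⁻¹) ^ k

/-- the reciprocal centre at level `k` -/
def uu (U η : ℝ) (k : ℕ) : ℝ := -U + η * k

/-- the factor of the level `k` at `t` -/
def cc (U η t : ℝ) (k : ℕ) : ℝ := 1 - uu U η k * t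

/-- the sums of digits `d ≤ N` over the levels `k, …, k + n - 1` -/
def DS (N : ℕ) (U η : ℝ) : ℕ → ℕ → Set (ℝ × ℝ)
  | _, 0 => {(0, 0)}
  | k, n + 1 => {z | ∃ d : ℕ, d ≤ N ∧ ∃ z' ∈ DS N U η (k + 1) n,
      z = (z'.1 - d * pw N k * uu U η k, z'.2 + d * pw N k)}

/-- the value of the line at `t` -/
def vl (z : ℝ × ℝ) (t : ℝ) : ℝ := z.2 + z.1 * t

theorem vl_step (N : ℕ) (U η t : ℝ) (k d : ℕ) (z : ℝ × ℝ) :
    vl (z.1 - d * pw N k * uu U η k, z.2 + d * pw N k) t = vl z t + d * (pw N k * cc U η t k) := by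
  unfold vl cc
  ring

theorem DS_finite (N : ℕ) (U η : ℝ) : ∀ n k : ℕ, (DS N U η k n).Finite
  | 0, k => by unfold DS; exact Set.finite_singleton _
  | n + 1, k => by
    have h : DS N U η k (n + 1) ⊆ ⋃ d ∈ Finset.range (N + 1),
        (fun z' : ℝ × ℝ => (z'.1 - d * pw N k * uu U η k, z'.2 + d * pw N k)) ''
          DS N U η (k + 1) n := by
      rintro z ⟨d, hd, z', hz', rfl⟩
      simp only [Set.mem_iUnion, Finset.mem_range]
      exact ⟨d, by omega, z', hz', rfl⟩
    refine Set.Finite.subset ?_ h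
    exact Set.Finite.biUnion (Finset.finite_toSet _) fun d _ => (DS_finite N U η n (k + 1)).image _

theorem pw_pos {N : ℕ} (hN : 2 ≤ N) (k : ℕ) : 0 < pw N k := by
  unfold pw
  have : (0 : ℝ) < N := by positivity
  positivity

theorem pw_succ {N : ℕ} (hN : 2 ≤ N) (k : ℕ) : (N : ℝ) * pw N (k + 1) = pw N k := by
  unfold pw
  have : (N : ℝ) ≠ 0 := by positivity
  rw [pow_succ]
  field_simp

/-- total weight of the levels `k, …, k + n - 1` with factors `c` and remainder `R` -/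
noncomputable def TT (N : ℕ) (c : ℕ → ℝ) (R : ℝ) : ℕ → ℕ → ℝ
  | _, 0 => R
  | k, n + 1 => (N : ℝ) * ((((N : ℝ)⁻¹) ^ k) * c k) + TT N c R (k + 1) n

theorem tail {N : ℕ} (hN : 2 ≤ N) (c : ℕ → ℝ) (R : ℝ) (K : ℕ) (hR : pw N K * c K ≤ R)
    (hc : ∀ j < K, c j ≤ (1 + 1 / (N : ℝ)) * c (j + 1)) :
    ∀ n k : ℕ, k + n = K → pw N k * c k ≤ TT N c R (k + 1) n
  | 0, k, h => by
    have : k = K := by omega
    subst this
    simpa [TT] using hR
  | n + 1, k, h => by
    have ih := tail hN c R K hR hc n (k + 1) (by omega)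
    have h1 : TT N c R (k + 1) (n + 1) =
        (N : ℝ) * (pw N (k + 1) * c (k + 1)) + TT N c R (k + 1 + 1) n := rfl
    have h2 := hc k (by omega)
    have h3 := pw_succ hN k
    have h4 := pw_pos hN k
    have hN0 : (0 : ℝ) < N := by positivity
    have h5 : pw N (k + 1) = pw N k / N := by
      rw [← h3]; field_simp
    rw [h1]
    calc pw N k * c k ≤ pw N k * ((1 + 1 / (N : ℝ)) * c (k + 1)) :=
          mul_le_mul_of_nonneg_left h2 h4.le
      _ = (N : ℝ) * (pw N (k + 1) * c (k + 1)) + pw N (k + 1) * c (k + 1) := by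
          rw [h5]; field_simp
      _ ≤ _ := by linarith

theorem cover {N : ℕ} (hN : 2 ≤ N) (U η t : ℝ) (R : ℝ) (K : ℕ)
    (hR : pw N K * cc U η t K ≤ R)
    (hc : ∀ j < K, cc U η t j ≤ (1 + 1 / (N : ℝ)) * cc U η t (j + 1))
    (hpos : ∀ j ≤ K, 0 < cc U η t j) :
    ∀ n k : ℕ, k + n = K → ∀ y : ℝ, 0 ≤ y → y ≤ TT N (cc U η t) R (k + 1) n →
      ∃ z ∈ DS N U η (k + 1) n, 0 ≤ y - vl z t ∧ y - vl z t ≤ R
  | 0, k, h => fun y hy hyR => by
    refine ⟨(0, 0), by unfold DS; simp, ?_, ?_⟩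
    · simpa [vl] using hy
    · simpa [vl, TT] using hyR
  | n + 1, k, h => fun y hy hyR => by
    have ih := cover hN U η t R K hR hc hpos n (k + 1) (by omega)
    have ht := tail hN (cc U η t) R K hR hc n (k + 1) (by omega)
    set s : ℝ := pw N (k + 1) * cc U η t (k + 1) with hs
    have hs0 : 0 < s := mul_pos (pw_pos hN _) (hpos _ (by omega))
    have h1 : TT N (cc U η t) R (k + 1) (n + 1) = (N : ℝ) * s + TT N (cc U η t) R (k + 1 + 1) n :=
      rfl
    rw [h1] at hyR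
    have key : ∃ d : ℕ, d ≤ N ∧ 0 ≤ y - d * s ∧ y - d * s ≤ TT N (cc U η t) R (k + 1 + 1) n := by
      by_cases hcase : (N : ℝ) * s ≤ y
      · exact ⟨N, le_rfl, by linarith, by linarith⟩
      · push Not at hcase
        refine ⟨⌊y / s⌋₊, ?_, ?_, ?_⟩
        · have h2 : y / s < N := by rw [div_lt_iff₀ hs0]; exact hcase
          have h3 : (⌊y / s⌋₊ : ℝ) ≤ y / s := Nat.floor_le (by positivity)
          exact_mod_cast (h3.trans h2.le)
        · have h3 : (⌊y / s⌋₊ : ℝ) ≤ y / s := Nat.floor_le (by positivity)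
          rw [le_div_iff₀ hs0] at h3
          linarith
        · have h3 : y / s < (⌊y / s⌋₊ : ℝ) + 1 := Nat.lt_floor_add_one _
          rw [div_lt_iff₀ hs0] at h3
          refine le_trans ?_ ht
          linarith
    obtain ⟨d, hd, hd0, hd1⟩ := key
    obtain ⟨z, hz, hz0, hz1⟩ := ih (y - d * s) hd0 hd1
    refine ⟨(z.1 - d * pw N (k + 1) * uu U η (k + 1), z.2 + d * pw N (k + 1)),
      ⟨d, hd, z, hz, rfl⟩, ?_, ?_⟩
    · rw [vl_step, ← hs]; linarith
    · rw [vl_step, ← hs]; linarith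

/-- the thickened values -/
def WW (N : ℕ) (U η t τ : ℝ) (k n : ℕ) : Set ℝ := {y | ∃ z ∈ DS N U η k n, |y - vl z t| ≤ τ}

theorem vol_step (N : ℕ) (U η t τ : ℝ) (k n : ℕ) :
    volume (WW N U η t τ k (n + 1)) ≤ (N + 1 : ℕ) * volume (WW N U η t τ (k + 1) n) := by
  have h : WW N U η t τ k (n + 1) ⊆ ⋃ d ∈ Finset.range (N + 1),
      (fun y : ℝ => y + (-(d * (pw N k * cc U η t k)))) ⁻¹' WW N U η t τ (k + 1) n := by
    rintro y ⟨z, ⟨d, hd, z', hz', rfl⟩, hy⟩
    simp only [Set.mem_iUnion, Finset.mem_range]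
    refine ⟨d, by omega, z', hz', ?_⟩
    rw [vl_step] at hy
    have : y + -(d * (pw N k * cc U η t k)) - vl z' t =
        y - (vl z' t + d * (pw N k * cc U η t k)) := by ring
    rw [this]
    exact hy
  refine (measure_mono h).trans ((measure_biUnion_finset_le _ _).trans ?_)
  rw [Finset.sum_congr rfl fun d _ => measure_preimage_add_right volume _ _]
  simp

theorem vol_steps (N : ℕ) (U η t τ : ℝ) (n : ℕ) : ∀ m k : ℕ,
    volume (WW N U η t τ k (m + n)) ≤ ((N + 1 : ℕ) : ENNReal) ^ m * volume (WW N U η t τ (k + m) n)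
  | 0, k => by simp
  | m + 1, k => by
    have h1 := vol_step N U η t τ k (m + n)
    have h2 := vol_steps N U η t τ n m (k + 1)
    have e1 : m + 1 + n = m + n + 1 := by ring
    have e2 : k + (m + 1) = k + 1 + m := by ring
    rw [e1, e2]
    refine h1.trans ((mul_le_mul_right h2 _).trans ?_)
    rw [pow_succ, ← mul_assoc, mul_comm (((N + 1 : ℕ) : ENNReal)) (((N + 1 : ℕ) : ENNReal) ^ m)]

/-- bound for the values -/
theorem vl_le {N : ℕ} (hN : 2 ≤ N) (U η t M : ℝ) (hM : 0 ≤ M) : ∀ n k : ℕ,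
    (∀ j, k ≤ j → j < k + n → |cc U η t j| ≤ M) → ∀ z ∈ DS N U η k n,
      |vl z t| ≤ 2 * M * (N * pw N k)
  | 0, k, _, z, hz => by
    have : z = (0, 0) := hz
    subst this
    have := (pw_pos hN k).le
    simp only [vl]
    have : (0 : ℝ) ≤ 2 * M * (N * pw N k) := by positivity
    simpa using this
  | n + 1, k, hc, z, hz => by
    obtain ⟨d, hd, z', hz', rfl⟩ := hz
    have ih := vl_le hN U η t M hM n (k + 1) (fun j h1 h2 => hc j (by omega) (by omega)) z' hz'
    rw [vl_step, pw_succ hN k] at *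
    have h1 := hc k le_rfl (by omega)
    have h2 := pw_pos hN k
    have h3 : |(d : ℝ) * (pw N k * cc U η t k)| ≤ N * (pw N k * M) := by
      rw [abs_mul, abs_mul, Nat.abs_cast, abs_of_pos h2]
      have : (d : ℝ) ≤ N := by exact_mod_cast hd
      gcongr
    have h4 := abs_add_le (vl z' t) ((d : ℝ) * (pw N k * cc U η t k))
    have h5 : 2 * M * pw N k ≤ M * (N * pw N k) := by
      have : (2 : ℝ) ≤ N := by exact_mod_cast hN
      have h6 : 2 * pw N k ≤ N * pw N k := by gcongr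
      nlinarith
    linarith

end Pool.Agent.P8H71.RQ
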