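import Pool.Agent.P8H71.RQ.BB

set_option autoImplicit false

namespace Pool.Agent.P8H71.RQ

open MeasureTheory Set Metric

/-- the strip of half width `w` around `y = a x + b` above `[-1, 1]` -/
def TS (a b w : ℝ) : Set (ℝ × ℝ) := {p | |p.1| ≤ 1 ∧ |p.2 - (a * p.1 + b)| ≤ w}

/-- the strip of a triple -/
def st (T : ℝ × ℝ × ℝ) : Set (ℝ × ℝ) := TS T.1 T.2.1 T.2.2

/-- the doubled strip of a triple -/
def fat (T : ℝ × ℝ × ℝ) : Set (ℝ × ℝ) := TS T.1 T.2.1 (2 * T.2.2)

theorem isClosed_TS (a b w : ℝ) : IsClosed (TS a b w) := by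
  have h1 : IsClosed {p : ℝ × ℝ | |p.1| ≤ 1} :=
    isClosed_le (f := fun p : ℝ × ℝ => |p.1|) (g := fun _ => 1) (by fun_prop) (by fun_prop)
  have h2 : IsClosed {p : ℝ × ℝ | |p.2 - (a * p.1 + b)| ≤ w} :=
    isClosed_le (f := fun p : ℝ × ℝ => |p.2 - (a * p.1 + b)|) (g := fun _ => w) (by fun_prop)
      (by fun_prop)
  exact h1.inter h2

theorem vol_le_of_sections {G : Set (ℝ × ℝ)} (hG : MeasurableSet G) (h1 : ∀ q ∈ G, |q.1| ≤ 1)
    {c : ENNReal} (hc : ∀ x : ℝ, volume {y : ℝ | (x, y) ∈ G} ≤ c) : volume G ≤ 2 * c := by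
  rw [Measure.volume_eq_prod, Measure.prod_apply hG]
  calc ∫⁻ x : ℝ, volume (Prod.mk x ⁻¹' G)
      ≤ ∫⁻ x : ℝ, (Icc (-1 : ℝ) 1).indicator (fun _ => c) x := by
        refine lintegral_mono fun x => ?_
        by_cases hx : x ∈ Icc (-1 : ℝ) 1
        · rw [indicator_of_mem hx]; exact hc x
        · rw [indicator_of_notMem hx]
          have : Prod.mk x ⁻¹' G = ∅ := by
            ext y
            simp only [mem_preimage, mem_empty_iff_false, iff_false]
            intro hy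
            exact hx (abs_le.1 (h1 _ hy))
          rw [this]; simp
    _ = 2 * c := by
        rw [lintegral_indicator measurableSet_Icc, setLIntegral_const, Real.volume_Icc, mul_comm]
        norm_num

/-- one family over the centre `xi` -/
theorem family (a b w s U : ℝ) (hU : 1 ≤ U) (hw : 0 < w) (hs : s = 1 ∨ s = -1) (xi : ℝ)
    (hxi : |xi| ≤ 1) (η : ℝ) (hη : 0 < η) (hη1 : η ≤ 1) :
    ∃ F : Set (ℝ × ℝ × ℝ), F.Finite ∧
      (∀ T ∈ F, 0 < T.2.2 ∧ T.2.2 ≤ w * η ∧
        (∀ x : ℝ, |x| ≤ 1 → |(T.1 * x + T.2.1) - (a * x + b)| + 2 * T.2.2 ≤ 2 * w) ∧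
        4 * T.2.2 ≤ s * (T.1 - a)) ∧
      (∀ p ∈ TS a b w, |p.1 - xi| ≤ 1 / (50 * U) → ∃ T ∈ F, p ∈ st T) ∧
      volume {q : ℝ × ℝ | (∃ T ∈ F, q ∈ fat T) ∧ 1 / U ≤ |q.1 - xi|} ≤
        ENNReal.ofReal (10000 * U * w * η) := by
  obtain ⟨D, R, hD, hR0, hRη, hDb, hcov, hsm⟩ := bb U hU η hη hη1
  have hU0 : 0 < U := by linarith
  set ρ : ℝ := w / (16 * U + 16) with hρ
  have hρ0 : 0 < ρ := by positivity
  have hwρ : w = ρ * (16 * U + 16) := by rw [hρ]; field_simp
  have hs1 : |s| = 1 := by rcases hs with rfl | rfl <;> simp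
  have hss : s * s = 1 := by rcases hs with rfl | rfl <;> simp
  set κ : ℝ := s * (w / 4) with hκ
  set J : ℕ := ⌈40 * U + 41⌉₊ with hJ
  have hJ1 : 40 * U + 41 ≤ J := Nat.le_ceil _
  have hJ2 : (J : ℝ) ≤ 40 * U + 42 := by
    have := Nat.ceil_lt_add_one (by positivity : 0 ≤ 40 * U + 41)
    linarith
  set f : ℤ → ℝ × ℝ → ℝ × ℝ × ℝ := fun j z =>
    (a + κ + ρ * z.1, b + j * (ρ / 2) + ρ * (z.2 - z.1 * xi), ρ * R) with hf
  set JJ : Set ℤ := Icc (-(J : ℤ)) J with hJJ
  set F : Set (ℝ × ℝ × ℝ) := ⋃ j ∈ JJ, (f j) '' D with hF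
  have hFfin : F.Finite := (Set.finite_Icc _ _).biUnion fun j _ => hD.image _
  have hval : ∀ (j : ℤ) (z : ℝ × ℝ) (x : ℝ), (f j z).1 * x + (f j z).2.1 =
      (a * x + b) + κ * x + j * (ρ / 2) + ρ * vl z (x - xi) := by
    intro j z x
    simp only [hf, vl]
    ring
  have hjb : ∀ j ∈ JJ, |(j : ℝ)| ≤ 40 * U + 42 := by
    intro j hj
    rw [hJJ, mem_Icc] at hj
    have h1 : (-(J : ℝ)) ≤ j := by exact_mod_cast hj.1
    have h2 : (j : ℝ) ≤ J := by exact_mod_cast hj.2
    rw [abs_le]; constructor <;> linarith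
  have hρR : 2 * (ρ * R) ≤ 2 * ρ := by nlinarith
  refine ⟨F, hFfin, ?_, ?_, ?_⟩
  · intro T hT
    simp only [hF, mem_iUnion, mem_image] at hT
    obtain ⟨j, hj, z, hz, rfl⟩ := hT
    obtain ⟨hz1, hz2⟩ := hDb z hz
    refine ⟨by simp only [hf]; positivity, ?_, ?_, ?_⟩
    · simp only [hf]
      have h1 : ρ ≤ w := by rw [hwρ]; nlinarith
      nlinarith
    · intro x hx
      rw [hval]
      have e1 : a * x + b + κ * x + j * (ρ / 2) + ρ * vl z (x - xi) - (a * x + b) =
          κ * x + j * (ρ / 2) + ρ * vl z (x - xi) := by ring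
      rw [e1]
      have h1 : |κ * x| ≤ w / 4 := by
        rw [hκ, abs_mul, abs_mul, hs1, one_mul, abs_of_pos (by positivity : 0 < w / 4)]
        nlinarith [abs_nonneg x]
      have h2 : |(j : ℝ) * (ρ / 2)| ≤ (40 * U + 42) * (ρ / 2) := by
        rw [abs_mul, abs_of_pos (by positivity : 0 < ρ / 2)]
        exact mul_le_mul_of_nonneg_right (hjb j hj) (by positivity)
      have h3 : |x - xi| ≤ 2 := (abs_sub x xi).trans (by linarith)
      have h4 : |vl z (x - xi)| ≤ 2 + 8 * U := by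
        unfold vl
        refine (abs_add_le _ _).trans ?_
        rw [abs_mul]
        nlinarith [abs_nonneg z.1, abs_nonneg (x - xi)]
      have h5 : |ρ * vl z (x - xi)| ≤ ρ * (2 + 8 * U) := by
        rw [abs_mul, abs_of_pos hρ0]
        exact mul_le_mul_of_nonneg_left h4 hρ0.le
      have h6 := abs_add_le (κ * x + j * (ρ / 2)) (ρ * vl z (x - xi))
      have h7 := abs_add_le (κ * x) (j * (ρ / 2))
      have h8 : 2 * (f j z).2.2 ≤ 2 * ρ := by simp only [hf]; exact hρR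
      have h9 : w / 4 + (40 * U + 42) * (ρ / 2) + ρ * (2 + 8 * U) + 2 * ρ ≤ 2 * w := by
        rw [hwρ]; nlinarith
      linarith
    · simp only [hf]
      have h1 : s * (a + κ + ρ * z.1 - a) = w / 4 + s * (ρ * z.1) := by
        rw [hκ]; linear_combination (w / 4) * hss
      rw [h1]
      have h2 : |s * (ρ * z.1)| ≤ ρ * (4 * U) := by
        rw [abs_mul, hs1, one_mul, abs_mul, abs_of_pos hρ0]
        exact mul_le_mul_of_nonneg_left hz1 hρ0.le
      have h3 := (abs_le.1 h2).1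
      have h4 : w / 4 = ρ * (4 * U + 4) := by rw [hwρ]; ring
      rw [h4]
      nlinarith
  · intro p hp hpx
    obtain ⟨hp1, hp2⟩ := hp
    set v : ℝ := p.2 - (a * p.1 + b) - κ * p.1 with hv
    have hv1 : |v| ≤ 5 * w / 4 := by
      have h1 : |κ * p.1| ≤ w / 4 := by
        rw [hκ, abs_mul, abs_mul, hs1, one_mul, abs_of_pos (by positivity : 0 < w / 4)]
        nlinarith [abs_nonneg p.1]
      have := abs_sub (p.2 - (a * p.1 + b)) (κ * p.1)
      rw [hv]; linarith
    set j : ℤ := ⌊2 * v / ρ⌋ with hj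
    have hj1 : (j : ℝ) * ρ ≤ 2 * v := by
      have := Int.floor_le (2 * v / ρ)
      rwa [le_div_iff₀ hρ0] at this
    have hj2 : 2 * v < (j + 1) * ρ := by
      have := Int.lt_floor_add_one (2 * v / ρ)
      rwa [div_lt_iff₀ hρ0] at this
    have hjm : j ∈ JJ := by
      obtain ⟨h1, h2⟩ := abs_le.1 hv1
      have h3 : 5 * w / 4 = ρ * (20 * U + 20) := by rw [hwρ]; ring
      rw [h3] at h1 h2
      have h4 : (j : ℝ) ≤ 40 * U + 40 := by
        by_contra hcon
        push Not at hcon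
        have : (40 * U + 40) * ρ < j * ρ := mul_lt_mul_of_pos_right hcon hρ0
        linarith
      have h5 : -(40 * U + 41) ≤ (j : ℝ) := by
        by_contra hcon
        push Not at hcon
        have : (j + 1) * ρ < (-(40 * U + 41) + 1) * ρ :=
          mul_lt_mul_of_pos_right (by linarith) hρ0
        linarith
      rw [hJJ, mem_Icc]
      constructor
      · have : (-(J : ℝ)) ≤ j := by linarith
        exact_mod_cast this
      · have : (j : ℝ) ≤ J := by linarith
        exact_mod_cast this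
    obtain ⟨z, hz, hzy⟩ := hcov (p.1 - xi) hpx ((v - j * (ρ / 2)) / ρ)
      (div_nonneg (by linarith) hρ0.le) (by rw [div_le_iff₀ hρ0]; linarith)
    refine ⟨f j z, ?_, hp1, ?_⟩
    · simp only [hF, mem_iUnion, mem_image]
      exact ⟨j, hjm, z, hz, rfl⟩
    · rw [hval]
      have e1 : p.2 - (a * p.1 + b + κ * p.1 + j * (ρ / 2) + ρ * vl z (p.1 - xi)) =
          ρ * ((v - j * (ρ / 2)) / ρ - vl z (p.1 - xi)) := by
        rw [hv]; field_simp; ring
      rw [e1, abs_mul, abs_of_pos hρ0]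
      simp only [hf]
      exact mul_le_mul_of_nonneg_left hzy hρ0.le
  · -- area
    have hmeas : MeasurableSet {q : ℝ × ℝ | (∃ T ∈ F, q ∈ fat T) ∧ 1 / U ≤ |q.1 - xi|} := by
      have : {q : ℝ × ℝ | (∃ T ∈ F, q ∈ fat T) ∧ 1 / U ≤ |q.1 - xi|} =
          (⋃ T ∈ F, fat T) ∩ {q | 1 / U ≤ |q.1 - xi|} := by
        ext q; simp
      rw [this]
      refine MeasurableSet.inter ?_ ?_
      · exact hFfin.measurableSet_biUnion fun T _ => (isClosed_TS _ _ _).measurableSet
      · exact (isClosed_le (f := fun _ : ℝ × ℝ => 1 / U) (g := fun q : ℝ × ℝ => |q.1 - xi|)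
          (by fun_prop) (by fun_prop)).measurableSet
    have hcard : ((Finset.Icc (-(J : ℤ)) J).card : ℝ) ≤ 80 * U + 85 := by
      rw [Int.card_Icc]
      have : ((J : ℤ) + 1 - -(J : ℤ)).toNat = 2 * J + 1 := by omega
      rw [this]; push_cast; linarith
    have hsec : ∀ x : ℝ, volume {y : ℝ | (x, y) ∈
        {q : ℝ × ℝ | (∃ T ∈ F, q ∈ fat T) ∧ 1 / U ≤ |q.1 - xi|}} ≤
          ENNReal.ofReal (5000 * U * w * η) := by
      intro x
      by_cases hx : |x| ≤ 1 ∧ 1 / U ≤ |x - xi|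
      swap
      · have : {y : ℝ | (x, y) ∈
            {q : ℝ × ℝ | (∃ T ∈ F, q ∈ fat T) ∧ 1 / U ≤ |q.1 - xi|}} = ∅ := by
          ext y
          simp only [mem_ofPred_eq, mem_empty_iff_false, iff_false]
          rintro ⟨⟨T, _, hT⟩, h2⟩
          exact hx ⟨hT.1, h2⟩
        rw [this]; simp
      obtain ⟨hx1, hx2⟩ := hx
      have h3 : |x - xi| ≤ 2 := (abs_sub x xi).trans (by linarith)
      have hS := hsm (x - xi) hx2 h3
      set S : Set ℝ := {y : ℝ | ∃ z ∈ D, |y - vl z (x - xi)| ≤ 4 * R} with hSdef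
      have hsub : {y : ℝ | (x, y) ∈
            {q : ℝ × ℝ | (∃ T ∈ F, q ∈ fat T) ∧ 1 / U ≤ |q.1 - xi|}} ⊆
          ⋃ j ∈ Finset.Icc (-(J : ℤ)) J,
            (fun y => ρ⁻¹ * y) ⁻¹' ((fun y => y + (-(ρ⁻¹ * ((a * x + b) + κ * x + j * (ρ / 2))))) ⁻¹' S)
          := by
        rintro y ⟨⟨T, hT, hTy⟩, -⟩
        simp only [hF, mem_iUnion, mem_image] at hT
        obtain ⟨j, hj, z, hz, rfl⟩ := hT
        simp only [mem_iUnion, Finset.mem_Icc]
        refine ⟨j, hj, z, hz, ?_⟩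
        have h4 := hTy.2
        simp only at h4
        rw [hval] at h4
        have e1 : y - (a * x + b + κ * x + j * (ρ / 2) + ρ * vl z (x - xi)) =
            ρ * (ρ⁻¹ * y + -(ρ⁻¹ * ((a * x + b) + κ * x + j * (ρ / 2))) - vl z (x - xi)) := by
          field_simp; ring
        rw [e1, abs_mul, abs_of_pos hρ0] at h4
        have h5 : 2 * (f j z).2.2 = ρ * (2 * R) := by simp only [hf]; ring
        rw [h5] at h4
        have h6 := le_of_mul_le_mul_left h4 hρ0
        linarith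
      refine (measure_mono hsub).trans ((measure_biUnion_finset_le _ _).trans ?_)
      have hterm : ∀ j ∈ Finset.Icc (-(J : ℤ)) J, volume ((fun y => ρ⁻¹ * y) ⁻¹'
          ((fun y => y + (-(ρ⁻¹ * ((a * x + b) + κ * x + j * (ρ / 2))))) ⁻¹' S)) ≤
            ENNReal.ofReal (ρ * (20 * η)) := by
        intro j _
        rw [Real.volume_preimage_mul_left (by positivity), measure_preimage_add_right, inv_inv,
          abs_of_pos hρ0, ENNReal.ofReal_mul hρ0.le]
        gcongr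
      refine (Finset.sum_le_card_nsmul _ _ _ hterm).trans ?_
      rw [nsmul_eq_mul, ← ENNReal.ofReal_natCast, ← ENNReal.ofReal_mul (Nat.cast_nonneg _)]
      apply ENNReal.ofReal_le_ofReal
      have h7 : (80 * U + 85) * ρ ≤ 165 / 32 * w := by rw [hwρ]; nlinarith
      calc ((Finset.Icc (-(J : ℤ)) J).card : ℝ) * (ρ * (20 * η))
          ≤ (80 * U + 85) * (ρ * (20 * η)) := by gcongr
        _ = ((80 * U + 85) * ρ) * (20 * η) := by ring
        _ ≤ (165 / 32 * w) * (20 * η) := by gcongr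
        _ ≤ 5000 * U * w * η := by
            have : 0 < w * η := by positivity
            nlinarith
    have h1 := vol_le_of_sections hmeas (fun q hq => by
      obtain ⟨⟨T, _, hT⟩, _⟩ := hq
      exact hT.1) hsec
    refine h1.trans (le_of_eq ?_)
    rw [← ENNReal.ofReal_ofNat 2, ← ENNReal.ofReal_mul (by norm_num)]
    congr 1; ring

end Pool.Agent.P8H71.RQ
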