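import Pool.Agent.P8H71.RQ.Step

set_option autoImplicit false

namespace Pool.Agent.P8H71.RQ

open MeasureTheory Set Metric

theorem step (A : Set (ℝ × ℝ)) (r : ℝ) (hr : 0 < r) :
    ∃ w0 : ℝ, 0 < w0 ∧ ∀ a b w : ℝ, |a| ≤ 2 → 0 < w → w ≤ w0 → ∀ ε : ℝ, 0 < ε → ∀ ω : ℝ, 0 < ω →
      ∀ s : ℝ, (s = 1 ∨ s = -1) → ∃ F : Set (ℝ × ℝ × ℝ), F.Finite ∧
        (∀ T ∈ F, 0 < T.2.2 ∧ T.2.2 ≤ ω ∧
          (∀ x : ℝ, |x| ≤ 1 → |(T.1 * x + T.2.1) - (a * x + b)| + 2 * T.2.2 ≤ 2 * w) ∧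
          4 * T.2.2 ≤ s * (T.1 - a)) ∧
        (∀ p ∈ A, p ∈ TS a b w → ∃ T ∈ F, p ∈ st T) ∧
        volume {q : ℝ × ℝ | (∃ T ∈ F, q ∈ fat T) ∧ r < infDist q A} ≤ ENNReal.ofReal ε := by
  set U : ℝ := max 1 (8 / r) with hU
  have hU1 : 1 ≤ U := le_max_left _ _
  have hU0 : 0 < U := by linarith
  have hUr : 1 / U ≤ r / 8 := by
    have : 8 / r ≤ U := le_max_right _ _
    rw [div_le_iff₀ hr] at this
    rw [div_le_iff₀ hU0]; linarith
  refine ⟨r / 6, by positivity, ?_⟩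
  intro a b w ha hw hwr ε hε ω hω s hs
  set n : ℕ := ⌈100 * U⌉₊ with hn
  have hn1 : 100 * U ≤ n := Nat.le_ceil _
  have hn0 : (0 : ℝ) < n := by linarith
  set η : ℝ := min 1 (min (ω / w) (ε / ((n + 1) * (10000 * U * w)))) with hη
  have hη0 : 0 < η := by
    refine lt_min one_pos (lt_min (by positivity) (by positivity))
  have hη1 : η ≤ 1 := min_le_left _ _
  have hη2 : w * η ≤ ω := by
    have : η ≤ ω / w := (min_le_right _ _).trans (min_le_left _ _)
    rw [le_div_iff₀ hw] at this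
    linarith
  have hη3 : ((n : ℝ) + 1) * (10000 * U * w * η) ≤ ε := by
    have : η ≤ ε / ((n + 1) * (10000 * U * w)) := (min_le_right _ _).trans (min_le_right _ _)
    rw [le_div_iff₀ (by positivity)] at this
    linarith
  set xi : Fin (n + 1) → ℝ := fun i => -1 + 2 * (i : ℕ) / n with hxidef
  have hxi : ∀ i, |xi i| ≤ 1 := by
    intro i
    have h1 : ((i : ℕ) : ℝ) ≤ n := by exact_mod_cast Nat.lt_succ_iff.1 i.2
    have h2 : 2 * ((i : ℕ) : ℝ) / n ≤ 2 := by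
      rw [div_le_iff₀ hn0]; linarith
    have h3 : 0 ≤ 2 * ((i : ℕ) : ℝ) / n := by positivity
    simp only [hxidef]
    rw [abs_le]; constructor <;> linarith
  choose Fi hFi using fun i : Fin (n + 1) => family a b w s U hU1 hw hs (xi i) (hxi i) η hη0 hη1
  set I : Set (Fin (n + 1)) := {i | ∃ p ∈ A, p ∈ TS a b w ∧ |p.1 - xi i| ≤ 1 / (50 * U)} with hI
  set F : Set (ℝ × ℝ × ℝ) := ⋃ i ∈ I, Fi i with hF
  have hmem : ∀ T, T ∈ F ↔ ∃ i ∈ I, T ∈ Fi i := by
    intro T; simp [hF]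
  refine ⟨F, (Set.toFinite I).biUnion fun i _ => (hFi i).1, ?_, ?_, ?_⟩
  · intro T hT
    obtain ⟨i, _, hTi⟩ := (hmem T).1 hT
    obtain ⟨h1, h2, h3, h4⟩ := (hFi i).2.1 T hTi
    exact ⟨h1, h2.trans hη2, h3, h4⟩
  · intro p hp hpT
    obtain ⟨h1, h2⟩ := abs_le.1 hpT.1
    set k : ℕ := ⌊(p.1 + 1) * n / 2⌋₊ with hk
    have hq0 : 0 ≤ (p.1 + 1) * n / 2 := by
      have : 0 ≤ p.1 + 1 := by linarith
      positivity
    have hk1 : (k : ℝ) ≤ (p.1 + 1) * n / 2 := Nat.floor_le hq0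
    have hk2 : (p.1 + 1) * n / 2 < k + 1 := Nat.lt_floor_add_one _
    have hkn : k ≤ n := by
      have : (k : ℝ) ≤ n := by
        refine hk1.trans ?_
        nlinarith
      exact_mod_cast this
    have hclose : |p.1 - xi ⟨k, by omega⟩| ≤ 1 / (50 * U) := by
      have e1 : p.1 - xi ⟨k, by omega⟩ = (2 / n) * ((p.1 + 1) * n / 2 - k) := by
        simp only [hxidef]
        field_simp; ring
      rw [e1, abs_mul, abs_of_pos (by positivity : (0 : ℝ) < 2 / n)]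
      have h3 : |(p.1 + 1) * n / 2 - k| ≤ 1 := by
        rw [abs_le]; constructor <;> linarith
      have h4 : (2 : ℝ) / n ≤ 1 / (50 * U) := by
        rw [div_le_div_iff₀ hn0 (by positivity)]; linarith
      calc (2 : ℝ) / n * |(p.1 + 1) * n / 2 - k| ≤ 1 / (50 * U) * 1 := by gcongr
        _ = _ := mul_one _
    obtain ⟨T, hT, hpT'⟩ := (hFi ⟨k, by omega⟩).2.2.1 p hpT hclose
    exact ⟨T, (hmem T).2 ⟨⟨k, by omega⟩, ⟨p, hp, hpT, hclose⟩, hT⟩, hpT'⟩
  · have hsub : {q : ℝ × ℝ | (∃ T ∈ F, q ∈ fat T) ∧ r < infDist q A} ⊆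
        ⋃ i ∈ (Finset.univ : Finset (Fin (n + 1))),
          {q : ℝ × ℝ | (∃ T ∈ Fi i, q ∈ fat T) ∧ 1 / U ≤ |q.1 - xi i|} := by
      rintro q ⟨⟨T, hT, hqT⟩, hqA⟩
      obtain ⟨i, hiI, hTi⟩ := (hmem T).1 hT
      simp only [mem_iUnion, Finset.mem_univ]
      refine ⟨i, trivial, ⟨T, hTi, hqT⟩, ?_⟩
      by_contra hcon
      push Not at hcon
      obtain ⟨p, hpA, hpT, hpx⟩ := hiI
      obtain ⟨_, _, h3, _⟩ := (hFi i).2.1 T hTi
      have h50 : 1 / (50 * U) = (1 / U) / 50 := by field_simp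
      rw [h50] at hpx
      have h4 : |q.1 - p.1| ≤ r / 6 := by
        have : q.1 - p.1 = (q.1 - xi i) - (p.1 - xi i) := by ring
        rw [this]
        refine (abs_sub _ _).trans ?_
        linarith
      have h5 : |q.2 - (a * q.1 + b)| ≤ 2 * w := by
        have h6 := h3 q.1 hqT.1
        have h7 := hqT.2
        have h8 := abs_add_le (q.2 - (T.1 * q.1 + T.2.1)) ((T.1 * q.1 + T.2.1) - (a * q.1 + b))
        rw [sub_add_sub_cancel] at h8
        linarith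
      have h6 : |q.2 - p.2| ≤ r := by
        have e : q.2 - p.2 = (q.2 - (a * q.1 + b)) + a * (q.1 - p.1) - (p.2 - (a * p.1 + b)) := by
          ring
        rw [e]
        refine (abs_sub _ _).trans ?_
        have h7 := abs_add_le (q.2 - (a * q.1 + b)) (a * (q.1 - p.1))
        have h8 : |a * (q.1 - p.1)| ≤ 2 * (r / 6) := by
          rw [abs_mul]
          exact mul_le_mul ha h4 (abs_nonneg _) (by norm_num)
        have h9 := hpT.2
        linarith
      have h7 : infDist q A ≤ r := by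
        refine (infDist_le_dist_of_mem hpA).trans ?_
        rw [Prod.dist_eq, Real.dist_eq, Real.dist_eq]
        exact max_le (by linarith) h6
      linarith
    refine (measure_mono hsub).trans ((measure_biUnion_finset_le _ _).trans ?_)
    refine (Finset.sum_le_card_nsmul _ _ _ fun i _ => (hFi i).2.2.2).trans ?_
    rw [nsmul_eq_mul, ← ENNReal.ofReal_natCast, ← ENNReal.ofReal_mul (Nat.cast_nonneg _)]
    apply ENNReal.ofReal_le_ofReal
    rw [Finset.card_univ, Fintype.card_fin]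
    push_cast
    exact hη3

end Pool.Agent.P8H71.RQ
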